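import Pool.Agent.Helper59.MB.Goals2

/-!
# Project MB (MP_49a1ce_an): goals, part 3 (Sarnak's conjecture; systems; the final statements)
-/

set_option autoImplicit false

open MeasureTheory Filter Topology Finset

namespace Pool.Agent.Helper59.MB

noncomputable section

/-! ## Definitions -/

/-- Sarnak's conjecture for homeomorphisms of compact metric spaces: topological entropy `0` implies
Moebius disjointness. -/
def Sarnak : Prop := ∀ (Y : Type) [MetricSpace Y] [CompactSpace Y] (T : Y ≃ₜ Y),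
  Dynamics.coverEntropy (⇑T) Set.univ = 0 → MD (⇑T)

/-- the block number `q` of length `L` of `u` -/
def wd (u : ℕ → ℤ) (L q : ℕ) : Fin L → ℤ := fun i => u (L * q + i)

/-- the words of length `n` of `v` -/
def words (v : ℕ → ℤ) (n : ℕ) : Set (Fin n → ℤ) := Set.range fun (a : ℕ) (i : Fin n) => v (a + i)

/-- the data for the construction of a sequence of zero entropy near `u` -/
structure Dat (u : ℕ → ℤ) (L T : ℕ → ℕ) (U : ∀ k, Set (Fin (L k) → ℤ)) : Prop where
  pos : ∀ k, 0 < L k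
  large : ∀ k, k ≤ L k
  dvd : ∀ k, L k ∣ L (k + 1)
  Tdvd : ∀ k, L k ∣ T k
  Tmono : Monotone T
  Tlarge : ∀ k, k ≤ T k
  fin : ∀ k, (U k).Finite
  card : ∀ k, ((U k).ncard : ℝ) ≤ 2 ^ ((1 / 2 : ℝ) ^ k * L k)
  freq : ∀ k, ∀ N ≥ T k, ((Set.ncard {n : ℕ | n < N ∧ wd u (L k) (n / L k) ∉ U k} : ℕ) : ℝ) ≤
    (1 / 2) ^ (k + 4) * N

open Classical in
/-- the sequence of zero entropy -/
def vv (u : ℕ → ℤ) (L T : ℕ → ℕ) (U : ∀ k, Set (Fin (L k) → ℤ)) (n : ℕ) : ℤ :=
  if ∀ k, T k ≤ n → wd u (L k) (n / L k) ∈ U k then u n else 0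

/-- the shift of `ℤ → ℤ` -/
def shZ : (ℤ → ℤ) ≃ₜ (ℤ → ℤ) where
  toFun y := fun n => y (n + 1)
  invFun y := fun n => y (n - 1)
  left_inv y := by ext; simp
  right_inv y := by ext; simp
  continuous_toFun := by fun_prop
  continuous_invFun := by fun_prop

/-- the shift over the alphabet `Z` -/
def shiftZ (Z : Type) (y : ℤ → Z) : ℤ → Z := fun n => y (n + 1)

/-- the shift over the alphabet `Z` times the dyadic odometer -/
def TZ (Z : Type) (x : (ℤ → Z) × ℤ_[2]) : (ℤ → Z) × ℤ_[2] := (shiftZ Z x.1, x.2 + 1)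

/-- the Bernoulli measure with the law `κ` of the letters -/
def Be {Z : Type} [MeasurableSpace Z] (κ : Measure Z) [IsProbabilityMeasure κ] : Measure (ℤ → Z) :=
  Measure.infinitePi fun _ : ℤ => κ

/-- Bernoulli measure times Haar measure -/
def BZ {Z : Type} [MeasurableSpace Z] (κ : Measure Z) [IsProbabilityMeasure κ] :
    Measure ((ℤ → Z) × ℤ_[2]) := (Be κ).prod haar2

/-- Question Q1 (literally the frozen statement `S04567`) -/
def Q1 : Prop :=
    ∀ (X Y : Type) [MetricSpace X] [CompactSpace X] [MeasurableSpace X] [BorelSpace X]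
      [MetricSpace Y] [CompactSpace Y] [MeasurableSpace Y] [BorelSpace Y]
      (T : X ≃ₜ X) (S : Y ≃ₜ Y) (μ : Measure X) (ν : Measure Y),
      IsProbabilityMeasure μ → IsProbabilityMeasure ν →
      MeasurePreserving (⇑T) μ μ → MeasurePreserving (⇑S) ν ν →
      (∀ μ' : Measure X, IsProbabilityMeasure μ' → MeasurePreserving (⇑T) μ' μ' → μ' = μ) →
      (∀ ν' : Measure Y, IsProbabilityMeasure ν' → MeasurePreserving (⇑S) ν' ν' → ν' = ν) →
      Ergodic (⇑T) μ →
      (∃ φ : X → Y, ∃ ψ : Y → X,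
        MeasurePreserving φ μ ν ∧ MeasurePreserving ψ ν μ ∧
        (∀ᵐ x ∂μ, φ (T x) = S (φ x)) ∧
        (∀ᵐ x ∂μ, ψ (φ x) = x) ∧
        (∀ᵐ y ∂ν, φ (ψ y) = y)) →
      (∀ f : C(X, ℝ), ∀ x : X,
        Tendsto (fun N : ℕ => (1 / (N : ℝ)) *
          ∑ n ∈ Finset.Icc 1 N, f ((⇑T)^[n] x) * ((ArithmeticFunction.moebius n : ℤ) : ℝ))
          atTop (𝓝 0)) →
      (∀ g : C(Y, ℝ), ∀ y : Y,
        Tendsto (fun N : ℕ => (1 / (N : ℝ)) *
          ∑ n ∈ Finset.Icc 1 N, g ((⇑S)^[n] y) * ((ArithmeticFunction.moebius n : ℤ) : ℝ))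
          atTop (𝓝 0))

/-! ## Theorem 3: Sarnak's conjecture implies that `μ` is not completely deterministic -/

/-- **ENA** (2 h).  Few words can be predicted with few errors.
Proof. Let `U` be the set of all `fun i : Fin L => β i` with `β` as in the statement (for some `e`); it is contained in the
finite set of the functions with values in `{-1, 0, 1}`. Such a word is determined by: the restriction of `e` (clipped to
the values `{-1, 0, 1}`; where `e ∉ {-1, 0, 1}` there is an error anyway) to the patterns `Fin r → {-1, 0, 1}`; its first `r`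
letters; the set `F ⊆ range L` of the places `≥ r` of the errors, `|F| ≤ θ L`; the letters at the places of `F` (reconstruct
`β i` for `i = 0, 1, ..`). So `|U| ≤ 3^(3^r) * 3^r * ∑_{t ≤ θ L} binom(L, t) 3^t`, and for `0 < x ≤ 1` the last sum is at most
`x^(-θ L) (1 + 3x)^L ≤ exp (L (3x + θ log (1/x)))`. First choose `x` with `3x ≤ (ε/4) log 2`, then `θ > 0` with
`θ log (1/x) ≤ (ε/4) log 2`; then `|U| ≤ 3^(3^r + r) 2^(ε L / 2) ≤ 2^(ε L)` for `L ≥ L₀(r)`. -/
def S_ENA : Prop := ∀ ε : ℝ, 0 < ε → ∃ θ : ℝ, 0 < θ ∧ ∀ r : ℕ, ∃ L₀ : ℕ, ∀ L ≥ L₀,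
  ∃ U : Finset (Fin L → ℤ), (U.card : ℝ) ≤ 2 ^ (ε * L) ∧
  ∀ (e : (Fin r → ℤ) → ℤ) (β : ℕ → ℤ), (∀ i, |β i| ≤ 1) →
  (((range L).filter fun i => r ≤ i ∧ β i ≠ e fun j => β (i - 1 - j)).card : ℝ) ≤ θ * L →
  (fun i : Fin L => β i) ∈ U

/-- **ENT** (1.5 h) [ENA].  A completely deterministic sequence has few block words.
Proof. `θ` from ENA; we may decrease it to `θ ≤ ε/2` (the statement of ENA remains true for smaller `θ`). Let
`δ = θ²/4 ` and `r`, `N₀` from `¬ NP u δ`; we may assume `r ≥ 1` (a function of `r` values is a function of `r + 1` values). For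
`L ≥ L₀(r)`, `L ≥ 1`, take `U` from ENA. Let `N` be large, `N' = L (N / L + 1)` (`N ≤ N' ≤ N + L`), `e` from `¬ NP` for `N'`:
`∑_{n ∈ [1,N']} (u n - e(past))² ≤ δ N'`. Let `e'` be the integer nearest to `e` (`round`); `u n` is an integer, so
`e' ≠ u n` implies ` (u n - e)² ≥ 1/4`: at most `4 δ N' = θ² N'` errors in `[1, N']`. A block `[L q, L q + L)`, `q < N'/L`, whose
word is not in `U` has more than `θ L` errors at places `≥ r` (there the pasts are in the block: `past u (L q + i) j =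
u (L q + i - 1 - j)`, `j < r ≤ i`; ENA for `β i = u (L q + i)`). So there are at most `θ N' / L` such blocks and at most
`θ N' ≤ θ (N + L) ≤ ε N` numbers `n < N` in them, if `N ≥ L`. -/
def S_ENT : Prop := ∀ u : ℕ → ℤ, (∀ n, |u n| ≤ 1) → (∀ δ : ℝ, 0 < δ → ¬ NP u δ) →
  ∀ ε : ℝ, 0 < ε → ∃ L₀ : ℕ, ∀ L ≥ L₀, ∃ U : Finset (Fin L → ℤ), (U.card : ℝ) ≤ 2 ^ (ε * L) ∧
  ∃ N₁ : ℕ, ∀ N ≥ N₁, ((Set.ncard {n : ℕ | n < N ∧ wd u L (n / L) ∉ U} : ℕ) : ℝ) ≤ ε * N

/-- **ENB** (1 h) [ENT].  The data exist.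
Proof. `ε_k = (1/2)^(k+4)`, `L₀(k)` from ENT; `L k = 2^(a k)` with `a k ≥ max (L₀ k) k` and `a` increasing (`2^a ≥ a`); `U k` from
ENT (coerced to a set), `2^(ε_k L) ≤ 2^((1/2)^k L)`. `T k` = a multiple of `L k` which is `≥ N₁ k`, `≥ k` and `≥ T (k-1)`. -/
def S_ENB : Prop := ∀ u : ℕ → ℤ, (∀ n, |u n| ≤ 1) → (∀ δ : ℝ, 0 < δ → ¬ NP u δ) →
  ∃ (L T : ℕ → ℕ) (U : ∀ k, Set (Fin (L k) → ℤ)), Dat u L T U

/-- **CLO** (0.8 h).  `vv` is near `u`.
Proof. If `n < N` and `vv n ≠ u n`, there is `k` with `T k ≤ n < N` and `wd u (L k) (n / L k) ∉ U k`; `k ≤ T k < N`. By `freq`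
(`N ≥ T k`) the number is at most `∑_{k < N} (1/2)^(k+4) N ≤ N / 8`. -/
def S_CLO : Prop := ∀ (u : ℕ → ℤ) (L T : ℕ → ℕ) (U : ∀ k, Set (Fin (L k) → ℤ)), Dat u L T U →
  ∀ N : ℕ, ((Set.ncard {n : ℕ | n < N ∧ vv u L T U n ≠ u n} : ℕ) : ℝ) ≤ N / 8

/-- **CPX** (2.5 h).  `vv` has few words.
Proof. Fix `k`. Claim: on a block `[L k q, L k q + L k)` with `L k q ≥ T k` the word of `vv` is either `0` or `F β`, where
`β = wd u (L k) q ∈ U k` and `F β i = β i` if for all `j < k` the subword of `β` of length `L j` which contains the place `i`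
(`L j ∣ L k`) is in `U j`, and `F β i = 0` otherwise. Indeed let `n = L k q + i`; for `j ≤ k`, `T j ≤ T k ≤ n`; for `j > k` the
condition `T j ≤ n` and the block `n / L j` are the same for all `n` in the block of level `k` (`L k ∣ L j ∣ T j`). So in the
part `[T k, ∞)`, `vv` is a concatenation of at most ` (U k).ncard + 1` different block words. A word of length `n` of `vv` which
begins at `a < T k`: at most `T k` of them. Those which begin at `a ≥ T k` are determined by `a % L k` and by the (at most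
`n / L k + 2`) block words met: at most `L k * (ncard + 1)^(n / L k + 2)`. With `ncard + 1 ≤ 2^((1/2)^k L k + 1)` the total
is at most `T k + L k * 2^(((1/2)^k L k + 1) (n / L k + 2)) ≤ C 2^(((1/2)^k + 1/L k) n)`; choose `k` with
` (1/2)^k + 1/k ≤ ε`. (`words` is finite: the values are in `{-1, 0, 1}`.) -/
def S_CPX : Prop := ∀ (u : ℕ → ℤ) (L T : ℕ → ℕ) (U : ∀ k, Set (Fin (L k) → ℤ)), (∀ n, |u n| ≤ 1) →
  Dat u L T U → ∀ ε : ℝ, 0 < ε → ∃ C : ℝ, ∀ n : ℕ,
  ((words (vv u L T U) n).ncard : ℝ) ≤ C * 2 ^ (ε * n)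

/-- **ZEA** (2 h).  A subshift with subexponential complexity has topological entropy `0`.
Proof. `≥ 0`: `Dynamics.coverEntropy_nonneg`. `≤ 0`: `coverEntropy` is the supremum over the entourages `W` of the limsup of
`log (coverMincard shZ K W n) / n` (`Mathlib/Dynamics/TopologicalEntropy/CoverEntropy.lean`). Every entourage of `ℤ → ℤ`
(product of discrete uniform spaces, `ℤ` with its metric) contains some `W_M = {(x, y) | ∀ |i| ≤ M, x i = y i}`; by
monotonicity take `W = W_M`. For each word of length `n + 2M + 1` which occurs in `K` choose a point of `K` carrying it at the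
places `[-M, n + M]` (`K` is invariant, so the words at these places are the words at `[0, n + 2M]`); these points form a
dynamical cover (`IsDynCoverOf shZ K W_M n`). So `coverMincard ≤ C 2^(ε (n + 2M + 1))` and the limsup is at most
`ε log 2`, for every `ε > 0`. (The image is finite: values in `{-1, 0, 1}`.) -/
def S_ZEA : Prop := ∀ K : Set (ℤ → ℤ), IsClosed K → K.Nonempty → (∀ y ∈ K, ∀ n, |y n| ≤ 1) →
  (∀ y, shZ y ∈ K ↔ y ∈ K) →
  (∀ ε : ℝ, 0 < ε → ∃ C : ℝ, ∀ n : ℕ,
    (((fun (y : ℤ → ℤ) (i : Fin n) => y i) '' K).ncard : ℝ) ≤ C * 2 ^ (ε * n)) →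
  Dynamics.coverEntropy (⇑shZ) K = 0

/-- **ZEB** (1.5 h) [ZEA].  A sequence with subexponential complexity is realised in a system of entropy `0`.
Proof. `x₀ n = v n` for `n ≥ 0` and `0` for `n < 0`; `K` = closure of `{shZ^i x₀ | i ∈ ℤ}` in `ℤ → ℤ`: closed, invariant under
`shZ` and its inverse, values in `{-1, 0, 1}` (a closed condition), compact (closed subset of a product of finite sets,
`isCompact_univ_pi`). A word of length `n` of a point of `K` is a word of a shift of `x₀` (the window condition is open), i.e.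
a word of `v`, or `0^i` followed by the initial word of length `n - i` of `v`, `1 ≤ i ≤ n`: at most `ncard (words v n) + n` words.
`n ≤ (1/ε') 2^(ε' n)`-type bound: the hypothesis of ZEA. `Y = K` with the metric of
`UniformSpace.metricSpace` (its uniform structure is the given one, countably generated), `T` = the restriction of `shZ`
(`Homeomorph.subtype`); `coverEntropy T univ = coverEntropy shZ K` by `Dynamics.coverEntropy_restrict`. `f y = y 0`,
`x = x₀`. -/
def S_ZEB : Prop := ∀ v : ℕ → ℤ, (∀ n, |v n| ≤ 1) →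
  (∀ ε : ℝ, 0 < ε → ∃ C : ℝ, ∀ n : ℕ, ((words v n).ncard : ℝ) ≤ C * 2 ^ (ε * n)) →
  ∃ (Y : Type) (_ : MetricSpace Y) (_ : CompactSpace Y) (T : Y ≃ₜ Y) (f : C(Y, ℝ)) (x : Y),
    Dynamics.coverEntropy (⇑T) Set.univ = 0 ∧ ∀ n : ℕ, f ((⇑T)^[n] x) = v n

/-- **SQF** (1 h).  At least half of the integers up to `N` are squarefree.
Proof. `μ(n)² = 1` iff `n` is squarefree. If `n ∈ [1, N]` is not squarefree then `p² ∣ n` for a prime `p`; the number is at most
`∑_p N / p² ≤ N (1/4 + 1/9 + ∑_{m ≥ 5 odd} 1/m²)` and `1/m² ≤ (1/2) (1/(m-1) - 1/(m+1))`, so the last sum is `≤ 1/8`;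
`1/4 + 1/9 + 1/8 < 1/2`. -/
def S_SQF : Prop := ∀ N : ℕ, (N : ℝ) / 2 ≤
  ∑ n ∈ Icc 1 N, ((ArithmeticFunction.moebius n : ℤ) : ℝ) ^ 2

/-- **SAR** (1 h) [ENB, CLO, CPX, ZEB, SQF].  Theorem 3.
Proof. Suppose not: `¬ NP μ δ` for all `δ > 0`. ENB, CPX, ZEB for `v = vv` give a system of entropy `0`, so by Sarnak's
conjecture ` (1/N) ∑_{n ∈ [1,N]} v n μ(n) → 0`. But `v n ∈ {μ(n), 0}`, so `v n μ(n) ≥ μ(n)² - (if v n ≠ μ(n) then 1 else 0)`, and
the sum is at least `N/2 - (N+1)/8 ≥ N/4` (SQF, CLO for `N + 1`). -/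
def S_SAR : Prop := Sarnak → ∃ δ : ℝ, 0 < δ ∧ NP (fun n => ArithmeticFunction.moebius n) δ

/-! ## Systems -/

/-- **ISA** (0.7 h).  `Iso` is symmetric and transitive.
Proof. Transitivity: `φ = φ₂ ∘ φ₁`, `ψ = ψ₁ ∘ ψ₂`; statements which hold `ν`-almost everywhere hold at `φ₁ x` for `μ`-almost
all `x` (`MeasurePreserving.quasiMeasurePreserving.ae`). Symmetry: for `ν`-almost all `y`: `φ (ψ y) = y`,
`φ (T (ψ y)) = S (φ (ψ y))`, and `ψ (φ (T (ψ y))) = T (ψ y)` (`T ∘ ψ` is measure preserving); so `ψ (S y) = T (ψ y)`. -/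
def S_ISA : Prop :=
  (∀ (Y Z : Type) [MeasurableSpace Y] [MeasurableSpace Z] (T : Y → Y) (μ : Measure Y) (S : Z → Z)
    (ν : Measure Z), MeasurePreserving T μ μ → Iso T μ S ν → Iso S ν T μ) ∧
  (∀ (Y Z W : Type) [MeasurableSpace Y] [MeasurableSpace Z] [MeasurableSpace W] (T : Y → Y)
    (μ : Measure Y) (S : Z → Z) (ν : Measure Z) (R : W → W) (ρ : Measure W),
    Iso T μ S ν → Iso S ν R ρ → Iso T μ R ρ)

/-- **IPR** (0.7 h) [HAR].  Product of an isomorphism with the odometer.
Proof. `φ' = Prod.map φ id`, `ψ' = Prod.map ψ id` (`MeasurePreserving.prod`; `μ`, `ν` are probability measures); the almost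
everywhere statements: the first marginal of `μ.prod haar2` is `μ` (`Measure.quasiMeasurePreserving_fst`). -/
def S_IPR : Prop := ∀ (Y Z : Type) [MeasurableSpace Y] [MeasurableSpace Z] (T : Y → Y)
  (μ : Measure Y) (S : Z → Z) (ν : Measure Z), IsProbabilityMeasure μ → IsProbabilityMeasure ν →
  Iso T μ S ν → Iso (fun z : Y × ℤ_[2] => (T z.1, z.2 + 1)) (μ.prod haar2)
    (fun z : Z × ℤ_[2] => (S z.1, z.2 + 1)) (ν.prod haar2)

/-- **ALP** (1.5 h).  Every standard Borel alphabet can be replaced by `A`.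
Proof. `ι = MeasurableSpace.mapNatBool Z : Z → A` is measurable and injective (a standard Borel space is countably
generated and separated), hence a measurable embedding (`Measurable.measurableEmbedding`), with a measurable left
inverse `θ`; if `Z` is empty there is no probability measure. `m = κ.map ι`. `φ y n = ι (y n)`, `ψ y n = θ (y n)`:
`Measure.infinitePi_map_pi` gives `MeasurePreserving` for `φ`; `ψ (φ y) = y`; `φ (ψ y) = y` almost everywhere as `m`-almost
every letter is in the range of `ι`; `ψ` is measure preserving because ` (Be m).map ψ = (Be κ).map (ψ ∘ φ)`. Exactly equivariant.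
The first isomorphism is the product with the identity of `ℤ_[2]` (`TB = TZ A`, `BM m = BZ m`). Last part: otherwise all
digits are almost surely constant, `m {a₀} = 1` for some `a₀`, so `κ {z | ι z = a₀} = 1`, and this set has exactly one element
`z₀`: `κ = dirac z₀`. -/
def S_ALP : Prop := ∀ (Z : Type) [MeasurableSpace Z] [StandardBorelSpace Z] (κ : Measure Z)
  [IsProbabilityMeasure κ], ∃ (m : Measure A) (_ : IsProbabilityMeasure m),
  Iso (TZ Z) (BZ κ) (⇑TB) (BM m) ∧ Iso (shiftZ Z) (Be κ) (shiftZ A) (Be m) ∧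
  ((¬ ∃ z : Z, κ = Measure.dirac z) →
    ∃ j : ℕ, 0 < m.real {a | a j = true} ∧ m.real {a | a j = true} < 1)

/-- **ERG** (2 h) [BLK].  The powers of a Bernoulli shift are ergodic.
Proof. Measure preserving: BLK with `n ↦ n + q`. Let `S` be measurable with `f⁻¹ S = S`, `f = (shiftZ A)^[q]`, and `ε > 0`. There is
a measurable set `C` which depends on the coordinates in `[-M, M]` only, with `μ (S ∆ C) < ε` (the measurable cylinders are
an algebra which generates the σ-algebra; approximation by sets of a generating algebra, e.g.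
`MeasureTheory.Measure.MeasureDense` in `Mathlib/MeasureTheory/Function/..SeparableMeasure`, or prove that the sets
which can be approximated form a σ-algebra). For `n q > 2M` the sets `C` and ` (f^n)⁻¹ C` depend on disjoint sets of
coordinates, so they are independent and `μ (C ∩ (f^n)⁻¹ C) = μ(C)²`; ` (f^n)⁻¹ S = S`. So `|μ(S) - μ(S)²| ≤ 4ε`. -/
def S_ERG : Prop := ∀ (m : Measure A) [IsProbabilityMeasure m] (q : ℕ), 0 < q →
  Ergodic ((shiftZ A)^[q]) (Be m)

/-- **ERT** (0.8 h).  Ergodicity of powers is an isomorphism invariant.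
Proof. For `μ`-almost all `x`, `φ (T^[q] x) = S^[q] (φ x)` (induction on `q`, `T` measure preserving). Let `B` be measurable
with ` (T^[q])⁻¹ B = B`, and `B' = ψ⁻¹ B`. For `ν`-almost all `y`, `ψ (S^[q] y) = T^[q] (ψ y)` (as in ISA), so
` (S^[q])⁻¹ B' = B'` up to a null set, and `ν B' ∈ {0, 1}`-type conclusion by
`Ergodic.quasiErgodic.ae_empty_or_univ'`; `μ B = ν B'` (`ψ` is measure preserving). -/
def S_ERT : Prop := ∀ (Y Z : Type) [MeasurableSpace Y] [MeasurableSpace Z] (T : Y → Y)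
  (μ : Measure Y) (S : Z → Z) (ν : Measure Z) (q : ℕ), IsProbabilityMeasure μ →
  MeasurePreserving T μ μ → MeasurePreserving S ν ν → Iso T μ S ν → Ergodic (S^[q]) ν →
  Ergodic (T^[q]) μ

/-- **UEE** (0.6 h).  Unique ergodicity implies ergodicity.
Proof. `Ergodic.iff_mem_extremePoints` or `Ergodic.of_mem_extremePoints` (`Mathlib/Dynamics/Ergodic/Extreme.lean`): the set of
the invariant probability measures is a singleton. Or directly: if `0 < ν B < 1` for an invariant `B` then the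
normalised restriction of `ν` to `B` is another invariant probability measure. -/
def S_UEE : Prop := ∀ (Y : Type) [MeasurableSpace Y] (T : Y → Y) (ν : Measure Y), UE T ν →
  Ergodic T ν

/-- **UEP** (2 h) [PHS, HAR].  The product of a uniquely ergodic system whose powers are ergodic with the odometer.
Proof. The product measure is invariant. Let `λ` be an invariant probability measure of `T' (y, t) = (T y, t + 1)`. Its
marginal on `Y` is `T`-invariant, hence `ν`. For `r < 2^k` let `λ_r B = λ (B × {ph k = r})`. `T'^[2^k]` preserves `λ` and the set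
`{ph k = r}` (PHS), so `λ_r` is invariant under `T^[2^k]`; `λ_r ≤ ν`. `λ_r(Y)` does not depend on `r` (`T'` maps
`{ph k = r}` to `{ph k = r + 1 mod 2^k}`), so it is `2^(-k)`. `2^k λ_r` is an invariant probability measure of `T^[2^k]`,
absolutely continuous with respect to the ergodic measure `ν`: equal to `ν` (`Ergodic.eq_of_absolutelyContinuous`). So `λ` and
`ν.prod haar2` agree on the sets `B × {ph k = r}` (HAR); these (with `∅`) are a π-system which generates the product
σ-algebra (the sets `{ph k = r}` are a countable basis of the topology of `ℤ_[2]`, PHS; two of them are disjoint or nested):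
`MeasureTheory.ext_of_generate_finite`. -/
def S_UEP : Prop := ∀ (Y : Type) [MeasurableSpace Y] (T : Y → Y) (ν : Measure Y), UE T ν →
  (∀ k : ℕ, Ergodic (T^[2 ^ k]) ν) →
  UE (fun z : Y × ℤ_[2] => (T z.1, z.2 + 1)) (ν.prod haar2)

/-- **QBE** (1.2 h) [MOD1, ISA, IPR, ALP, ERG, ERT, UEE, UEP].  Theorem 4.
Proof. Let ` (Y, T, ν)` be uniquely ergodic and isomorphic to a Bernoulli shift; by ALP and ISA to ` (shiftZ A, Be m)`. ERG,
ERT: all `T^[2^k]` are ergodic; UEP: `T' = T × (+1)` on `Y × ℤ_[2]` is uniquely ergodic with the measure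
`ν.prod haar2`; IPR: isomorphic to ` (TB, BM m)` (`TB = fun z => (shiftZ A z.1, z.2 + 1)`, `BM m = (Be m).prod haar2`). MOD1:
` (W, R, ρ)` with `UMD R`, so `MD R` (divide by `N`), isomorphic to ` (TB, BM m)`. Q1 for `X = W` and `Y × ℤ_[2]` (UEE for the
ergodicity of `R`; ISA): `T'` is Moebius disjoint, so `T` is (`f ∘ Prod.fst`, the point ` (y, 0)`). -/
def S_QBE : Prop := Q1 → ∀ (Y : Type) [MetricSpace Y] [CompactSpace Y] [MeasurableSpace Y]
  [BorelSpace Y] (T : Y ≃ₜ Y) (ν : Measure Y), UE (⇑T) ν →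
  (∃ (Z : Type) (_ : MeasurableSpace Z) (_ : StandardBorelSpace Z) (κ : Measure Z)
    (_ : IsProbabilityMeasure κ), Iso (⇑T) ν (shiftZ Z) (Be κ)) → MD (⇑T)

/-- **MOA** (0.6 h) [MOD1, NMD, ALP, ISA].  Theorems 1 and 2 for all alphabets. Proof. MOD1 and NMD for the `m` of ALP; ISA
(`Iso T ν TB (BM m)` and `Iso (TZ Z) (BZ κ) TB (BM m)`; `TZ Z` preserves `BZ κ`: product of the invariance of `Be κ`, BLK-like, and
of `haar2`, HAR; these two may be used as hypotheses as well). -/
def S_MOA : Prop :=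
  (∀ (Z : Type) [MeasurableSpace Z] [StandardBorelSpace Z] (κ : Measure Z)
    [IsProbabilityMeasure κ], ∃ (Y : Type) (_ : MetricSpace Y) (_ : CompactSpace Y)
    (_ : MeasurableSpace Y) (_ : BorelSpace Y) (T : Y ≃ₜ Y) (ν : Measure Y), UE (⇑T) ν ∧
    Iso (⇑T) ν (TZ Z) (BZ κ) ∧ UMD (⇑T)) ∧
  ((∃ δ : ℝ, 0 < δ ∧ NP (fun n => ArithmeticFunction.moebius n) δ) →
    ∀ (Z : Type) [MeasurableSpace Z] [StandardBorelSpace Z] (κ : Measure Z)
    [IsProbabilityMeasure κ], (¬ ∃ z : Z, κ = Measure.dirac z) → ∃ (Y : Type) (_ : MetricSpace Y)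
    (_ : CompactSpace Y) (_ : MeasurableSpace Y) (_ : BorelSpace Y) (T : Y ≃ₜ Y) (ν : Measure Y),
    UE (⇑T) ν ∧ Iso (⇑T) ν (TZ Z) (BZ κ) ∧ ¬ MD (⇑T))

/-- **NEG** (0.8 h) [MOD1, NMD, ISA, UEE, HAR].  If `μ` is not completely deterministic then Q1 has a negative answer.
Proof. `m = (1/2) dirac (fun _ => true) + (1/2) dirac (fun _ => false)`, `m.real {a | a 0 = true} = 1/2`. MOD1 gives an `MD` model
(`UMD` implies `MD`), NMD one which is not `MD`; both are isomorphic to ` (TB, BM m)`, ISA; UEE. Contradiction to Q1. -/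
def S_NEG : Prop := (∃ δ : ℝ, 0 < δ ∧ NP (fun n => ArithmeticFunction.moebius n) δ) → ¬ Q1

end

end Pool.Agent.Helper59.MB
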