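import Pool.Agent.Helper50.MB.Goals

/-!
# Project MB, packet AN1: superadditivity with a factor.
-/

set_option autoImplicit false

namespace Pool.Agent.Helper59.MB

theorem add_ge {a b s : ℝ} (ha : s / 4 ≤ a) (hb : s / 4 ≤ b) (hs : 0 ≤ s)
    (h : s ^ 2 ≤ a ^ 2 + b ^ 2) : 6 / 5 * s ≤ a + b := by
  by_contra hlt
  push Not at hlt
  have h1 : 0 ≤ (a - s / 4) * (b - s / 4) := mul_nonneg (by linarith) (by linarith)
  have h2 : 7 / 8 * s ^ 2 + (a + b) * s / 2 ≤ (a + b) ^ 2 := by nlinarith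
  have h3 : 0 ≤ (6 / 5 * s - (a + b)) * (a + b + 7 / 10 * s) := mul_nonneg (by linarith) (by linarith)
  have hs0 : 0 < s := by
    rcases hs.lt_or_eq with h4 | h4
    · exact h4
    · exfalso
      rw [← h4] at ha hb hlt
      linarith
  nlinarith [mul_pos hs0 hs0]

/-- **Packet MB-AN1.** -/
theorem goalAN1 : Pool.Agent.Helper50.MB.AN1 := by
  refine ⟨16 ^ 12, fun n n1 n2 hn h1 h2 h3 => ?_⟩
  have hn' : ((16 : ℝ) ^ 12) ≤ n := by exact_mod_cast hn
  have hnpos : (0 : ℝ) < n := lt_of_lt_of_le (by positivity) hn'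
  have h1' : (n : ℝ) ≤ 16 * n1 := by exact_mod_cast h1
  have h2' : (n : ℝ) ≤ 16 * n2 := by exact_mod_cast h2
  have h3' : (n : ℝ) ≤ n1 + n2 := by exact_mod_cast h3
  have hlog : 12 * Real.log 16 ≤ Real.log n := by
    have h := Real.log_le_log (by positivity) hn'
    rw [Real.log_pow] at h
    exact_mod_cast h
  have hl16 : 0 ≤ Real.log 16 := Real.log_nonneg (by norm_num)
  have hq : ∀ m : ℕ, (n : ℝ) ≤ 16 * m → Real.sqrt n / 4 ≤ Real.sqrt m ∧
      Real.log n - Real.log 16 ≤ Real.log m := by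
    intro m hm
    have hm0 : (0 : ℝ) < m := by linarith
    constructor
    · rw [div_le_iff₀ (by norm_num)]
      have h4 : Real.sqrt m * 4 = Real.sqrt (16 * m) := by
        rw [Real.sqrt_mul (by norm_num), show (16 : ℝ) = 4 ^ 2 by norm_num, Real.sqrt_sq (by norm_num)]
        ring
      rw [h4]
      exact Real.sqrt_le_sqrt hm
    · have h4 := Real.log_le_log hnpos hm
      rw [Real.log_mul (by norm_num) hm0.ne'] at h4
      linarith
  obtain ⟨a1, l1⟩ := hq n1 h1'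
  obtain ⟨a2, l2⟩ := hq n2 h2'
  have hsum : 6 / 5 * Real.sqrt n ≤ Real.sqrt n1 + Real.sqrt n2 := by
    refine add_ge a1 a2 (Real.sqrt_nonneg _) ?_
    rw [Real.sq_sqrt hnpos.le, Real.sq_sqrt (Nat.cast_nonneg _), Real.sq_sqrt (Nat.cast_nonneg _)]
    exact h3'
  have hs0 : 0 ≤ Real.sqrt n := Real.sqrt_nonneg _
  have hd : 0 ≤ Real.log n - Real.log 16 := by linarith
  calc (11 / 10) * (Real.sqrt n * Real.log n) ≤ (6 / 5 * Real.sqrt n) * (Real.log n - Real.log 16) := by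
        nlinarith [mul_nonneg hs0 (sub_nonneg.2 hlog)]
    _ ≤ (Real.sqrt n1 + Real.sqrt n2) * (Real.log n - Real.log 16) :=
        mul_le_mul_of_nonneg_right hsum hd
    _ = Real.sqrt n1 * (Real.log n - Real.log 16) + Real.sqrt n2 * (Real.log n - Real.log 16) := by ring
    _ ≤ Real.sqrt n1 * Real.log n1 + Real.sqrt n2 * Real.log n2 :=
        add_le_add (mul_le_mul_of_nonneg_left l1 (Real.sqrt_nonneg _))
          (mul_le_mul_of_nonneg_left l2 (Real.sqrt_nonneg _))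

end Pool.Agent.Helper59.MB
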