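import Mathlib

/-!
# Project MB (MP_49a1ce_an): Moebius disjointness across uniquely ergodic models.  Definitions

`A = {0,1}^ℕ` is the alphabet (a letter is a sequence of digits), `P s k = 2 ^ s k` are the block
lengths, `Phi s V m k` maps words of length `P s k` to words of this length; `X s V m` is the space
of all pairs (two-sided sequence of letters, 2-adic integer) all of whose aligned blocks are good.
-/

set_option autoImplicit false
set_option linter.unusedSectionVars false

open MeasureTheory Filter Topology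

namespace Pool.Agent.Helper59.MB

noncomputable section

/-! ### Letters, words, tests -/

/-- letters: sequences of binary digits -/
abbrev A : Type := ℕ → Bool

/-- one-sided words (only an initial part matters) -/
abbrev Wd : Type := ℕ → A

/-- specifications of cylinders: ` (L, r, S)`; `L` = number of digits and half width of the window,
`r` = phase modulo `P s L`, `S` = the places ` (a, j)` of the window which carry the digit `true` -/
abbrev Sp : Type := ℕ × ℕ × Finset (ℕ × ℕ)

/-- an enumeration of the specifications, in which each of them occurs infinitely often -/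
def spec (l : ℕ) : Sp := (Encodable.decode (α := Sp) (Nat.unpair l).1).getD (0, 0, ∅)

/-- block lengths -/
def P (s : ℕ → ℕ) (k : ℕ) : ℕ := 2 ^ s k

/-- the word `w` satisfies the specification `c` at the place `i` -/
def hit (s : ℕ → ℕ) (c : Sp) (w : Wd) (i : ℕ) : Prop :=
  i % P s c.1 = c.2.1 ∧ ∀ a < 2 * c.1 + 1, ∀ j < c.1, (w (i - c.1 + a) j = true ↔ (a, j) ∈ c.2.2)

open Classical in
/-- The test number `l`, a function of the phase `i % P s l` and of the digits `< l` of the block of
length `P s l` of `w` which contains the place `i`. -/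
def ev (s : ℕ → ℕ) (l : ℕ) (w : Wd) (i : ℕ) : ℝ :=
  if (spec l).1 ≤ l ∧ (spec l).1 ≤ i % P s l ∧ i % P s l + (spec l).1 < P s l ∧ hit s (spec l) w i
  then 1 else 0

/-- the word which begins at the place `a` of `w` -/
def from' (a : ℕ) (w : Wd) : Wd := fun j => w (a + j)

/-- `Φ` applied to the blocks of length `P s k` -/
def cat (s : ℕ → ℕ) (k : ℕ) (Φ : Wd → Wd) (w : Wd) : Wd :=
  fun i => Φ (from' (P s k * (i / P s k)) w) (i % P s k)

/-! ### Good words -/

/-- Good words of level `k + 1` (length `P s (k + 1)`) with the constant `η`; `e l ρ` are the expected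
values of the test `l ≤ k` at the phase `ρ < P s k`, the weights are taken from `V k`. -/
def GoodW (s : ℕ → ℕ) (V : ℕ → Set (ℕ → ℝ)) (k : ℕ) (η : ℝ) (e : ℕ → ℕ → ℝ) (w : Wd) : Prop :=
  ∀ l ≤ k, ∀ i₁ i₂ : ℕ, i₁ ≤ i₂ → i₂ ≤ P s (k + 1) → ∀ v ∈ V k,
    |∑ i ∈ Finset.Ico i₁ i₂, (ev s l w i - e l (i % P s k)) * v i| ≤ η * P s (k + 1)

variable (s : ℕ → ℕ) (V : ℕ → Set (ℕ → ℝ)) (m : Measure A) [IsProbabilityMeasure m]

/-- the law of one-sided words: independent letters of law `m` -/
def Q : Measure Wd := Measure.infinitePi fun _ : ℕ => m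

/-- the expected value of the test `l` at the place `ρ` of `Φ w` -/
def mean (Φ : Wd → Wd) (l ρ : ℕ) : ℝ := ∫ w, ev s l (Φ w) ρ ∂(Q m)

/-- the fixed good word of level `k + 1` -/
def gw (k : ℕ) (Φ : Wd → Wd) : Wd :=
  cat s k Φ (Classical.epsilon fun w : Wd =>
    GoodW s V k (1 / (2 * (k + 1))) (mean s m Φ) (cat s k Φ w))

open Classical in
/-- the modification map of level `k + 1`, if `Φ` is that of level `k` -/
def nxt (k : ℕ) (Φ : Wd → Wd) (w : Wd) : Wd :=
  if GoodW s V k (1 / (k + 1)) (mean s m Φ) (cat s k Φ w) then cat s k Φ w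
  else fun i j => if j < k + 1 then gw s V m k Φ i j else cat s k Φ w i j

/-- the modification maps -/
def Phi : ℕ → Wd → Wd
  | 0 => id
  | k + 1 => nxt s V m k (Phi k)

/-- `E s V m k l ρ`: the expected value of the test `l ≤ k` at the phase `ρ < P s k` -/
def E (k : ℕ) : ℕ → ℕ → ℝ := mean s m (Phi s V m k)

/-- good words of level `k + 1` -/
def Good (k : ℕ) : Wd → Prop := GoodW s V k (1 / (k + 1)) (E s V m k)

/-- half-good words of level `k + 1` -/
def HGood (k : ℕ) : Wd → Prop := GoodW s V k (1 / (2 * (k + 1))) (E s V m k)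

/-- the length `P s (k + 1)` is admissible -/
def Adm (k : ℕ) : Prop :=
  (Q m).real {w | ¬ HGood s V m k (cat s k (Phi s V m k) w)} ≤ (1 / 2) ^ (k + 2) / P s (k + 1) ∧
    2 * (k + 1) * P s k ≤ P s (k + 1)

/-- the standing assumptions up to level `K` -/
structure Par (K : ℕ) : Prop where
  mono : StrictMono s
  fin : ∀ k, (V k).Finite
  one : ∀ k, (fun _ => (1 : ℝ)) ∈ V k
  le : ∀ k, ∀ v ∈ V k, ∀ i, |v i| ≤ 1
  adm : ∀ k < K, Adm s V m k

/-! ### The base system `B × O` -/

instance : MeasurableSpace ℤ_[2] := borel _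

instance : BorelSpace ℤ_[2] := ⟨rfl⟩

/-- the base space: two-sided sequences of letters, and 2-adic integers -/
abbrev Bas : Type := (ℤ → A) × ℤ_[2]

/-- the transformation: shift and odometer -/
def TB : Bas ≃ₜ Bas where
  toFun x := (fun n => x.1 (n + 1), x.2 + 1)
  invFun x := (fun n => x.1 (n - 1), x.2 - 1)
  left_inv x := by ext <;> simp
  right_inv x := by ext <;> simp
  continuous_toFun := by fun_prop
  continuous_invFun := by fun_prop

/-- the Haar probability measure of `ℤ_[2]` -/
def haar2 : Measure ℤ_[2] := Measure.addHaarMeasure ⊤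

/-- the invariant measure of the base system: letters independent of law `m`, and Haar measure -/
def BM : Measure Bas := (Measure.infinitePi fun _ : ℤ => m).prod haar2

/-! ### The model -/

/-- the residue of a 2-adic integer modulo `2 ^ k` -/
def ph (k : ℕ) (t : ℤ_[2]) : ℕ := (PadicInt.toZModPow k t).val

/-- the one-sided word which begins at the place `n` of a two-sided sequence -/
def fromZ (n : ℤ) (y : ℤ → A) : Wd := fun i => y (n + i)

/-- The space: all aligned blocks of level `k + 1` are good. -/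
def X : Set Bas :=
  {x | ∀ (k : ℕ) (n : ℤ), ph (s (k + 1)) (x.2 + (n : ℤ_[2])) = 0 →
    Good s V m k (fromZ n x.1)}

lemma TB_mem (x : Bas) : TB x ∈ X s V m ↔ x ∈ X s V m := by
  have key : ∀ (z : Bas) (n : ℤ), ((TB z).2 + (n : ℤ_[2]) = z.2 + ((n + 1 : ℤ) : ℤ_[2])) ∧
      fromZ n (TB z).1 = fromZ (n + 1) z.1 := by
    intro z n
    constructor
    · simp only [TB, Homeomorph.homeomorph_mk_coe, Equiv.coe_fn_mk]
      push_cast; ring
    · funext i
      exact congrArg z.1 (by ring)
  constructor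
  · intro h k n hn
    have h1 := h k (n - 1)
    rw [(key x (n - 1)).1, (key x (n - 1)).2] at h1
    simpa using h1 (by simpa using hn)
  · intro h k n hn
    rw [(key x n).1] at hn
    rw [(key x n).2]
    exact h k (n + 1) hn

/-- the transformation of the model -/
def TX : X s V m ≃ₜ X s V m := TB.subtype fun x => (TB_mem s V m x).symm

/-- the test `l` at the coordinate `0` -/
def Th (s : ℕ → ℕ) (l : ℕ) (x : Bas) : ℝ :=
  ev s l (fromZ (-(ph (s l) x.2 : ℤ)) x.1) (ph (s l) x.2)

open Classical in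
/-- the indicator of a cylinder -/
def Fc (s : ℕ → ℕ) (c : Sp) (x : Bas) : ℝ :=
  if ph (s c.1) x.2 = c.2.1 ∧ ∀ a < 2 * c.1 + 1, ∀ j < c.1,
    (x.1 ((a : ℤ) - c.1) j = true ↔ (a, j) ∈ c.2.2) then 1 else 0

/-- the level `k` approximation of the isomorphism: `Phi` applied to the aligned blocks -/
def psi (k : ℕ) (w : ℤ → A) (t : ℤ_[2]) (n : ℤ) : A :=
  Phi s V m k (fromZ (n - (ph (s k) (t + (n : ℤ_[2])) : ℤ)) w) (ph (s k) (t + (n : ℤ_[2])))

open Classical in
/-- the limit of the approximations -/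
def Psi (x : Bas) : Bas :=
  (fun n j => decide (∃ K, ∀ k ≥ K, psi s V m k x.1 x.2 n j = true), x.2)

/-- every digit is repeated infinitely often -/
def dup (a : A) : A := fun i => a (Nat.unpair i).1

/-- `dup` at all coordinates -/
def dupB (x : Bas) : Bas := (fun n => dup (x.1 n), x.2)

lemma measurable_dup : Measurable dup := by
  rw [measurable_pi_iff]
  intro i
  exact measurable_pi_apply _

/-- the law of `dup a` -/
def mdup : Measure A := m.map dup

instance : IsProbabilityMeasure (mdup m) := Measure.isProbabilityMeasure_map measurable_dup.aemeasurable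

open Classical in
/-- the decoding of `dup`: limit along the copies of a digit -/
def dec (x : Bas) : Bas :=
  (fun n e => decide (∃ J, ∀ j ≥ J, x.1 n (Nat.pair e j) = true), x.2)

/-! ### Systems -/

/-- `T` is uniquely ergodic with invariant probability measure `ν` -/
def UE {Y : Type} [MeasurableSpace Y] (T : Y → Y) (ν : Measure Y) : Prop :=
  IsProbabilityMeasure ν ∧ MeasurePreserving T ν ν ∧
    ∀ ν' : Measure Y, IsProbabilityMeasure ν' → MeasurePreserving T ν' ν' → ν' = ν

/-- measure-theoretic isomorphism (literally the condition in the frozen statement) -/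
def Iso {Y Z : Type} [MeasurableSpace Y] [MeasurableSpace Z] (T : Y → Y) (μ : Measure Y)
    (S : Z → Z) (ν : Measure Z) : Prop :=
  ∃ φ : Y → Z, ∃ ψ : Z → Y, MeasurePreserving φ μ ν ∧ MeasurePreserving ψ ν μ ∧
    (∀ᵐ x ∂μ, φ (T x) = S (φ x)) ∧ (∀ᵐ x ∂μ, ψ (φ x) = x) ∧ (∀ᵐ y ∂ν, φ (ψ y) = y)

/-- the Moebius function on the integers, `0` on the integers `≤ 0` -/
def mu (a : ℤ) : ℝ := ((ArithmeticFunction.moebius a.toNat : ℤ) : ℝ)

/-- Moebius disjointness (as in the frozen statement) -/
def MD {Y : Type} [TopologicalSpace Y] (T : Y → Y) : Prop :=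
  ∀ f : C(Y, ℝ), ∀ x : Y, Tendsto (fun N : ℕ => (1 / (N : ℝ)) *
    ∑ n ∈ Finset.Icc 1 N, f (T^[n] x) * ((ArithmeticFunction.moebius n : ℤ) : ℝ)) atTop (𝓝 0)

/-- uniform Moebius disjointness -/
def UMD {Y : Type} [TopologicalSpace Y] (T : Y → Y) : Prop :=
  ∀ f : C(Y, ℝ), ∀ ε > 0, ∃ N₀ : ℕ, ∀ N ≥ N₀, ∀ x : Y,
    |∑ n ∈ Finset.Icc 1 N, f (T^[n] x) * ((ArithmeticFunction.moebius n : ℤ) : ℝ)| ≤ ε * N

/-- The past of `n`: `past n i = μ(n - 1 - i)`. -/
def past (u : ℕ → ℤ) (n : ℕ) : ℕ → ℤ := fun i => if i < n then u (n - 1 - i) else 0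

/-- the function `e` of the past depends on the last `r` values only -/
def Loc (r : ℕ) (e : (ℕ → ℤ) → ℝ) : Prop := ∀ p p' : ℕ → ℤ, (∀ i < r, p i = p' i) → e p = e p'

/-- `e` is the best predictor of `u n`, `1 ≤ n ≤ N`, from the last `r` values -/
structure Pred (u : ℕ → ℤ) (N r : ℕ) (e : (ℕ → ℤ) → ℝ) : Prop where
  loc : Loc r e
  le : ∀ p, |e p| ≤ 1
  orth : ∀ G : (ℕ → ℤ) → ℝ, Loc r G →
    ∑ n ∈ Finset.Icc 1 N, ((u n : ℝ) - e (past u n)) * G (past u n) = 0

/-- the prediction error -/
def Dv (u : ℕ → ℤ) (e : (ℕ → ℤ) → ℝ) (n : ℕ) : ℝ := (u n : ℝ) - e (past u n)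

/-- `NP u δ`: for all `r`, `N₀` there is `N ≥ N₀` such that every predictor of `u n` from the last `r`
values has mean square error `> δ` on `[1, N]`. -/
def NP (u : ℕ → ℤ) (δ : ℝ) : Prop :=
  ∀ r N₀ : ℕ, ∃ N ≥ N₀, ∀ e : (Fin r → ℤ) → ℝ,
    δ * N < ∑ n ∈ Finset.Icc 1 N, ((u n : ℝ) - e fun i => past u n i) ^ 2

/-- the block lengths of the Moebius disjoint model -/
def s0 (k : ℕ) : ℕ := (k + 10) ^ 2

/-- the weights of the Moebius disjoint model -/
def VM (s : ℕ → ℕ) (k : ℕ) : Set (ℕ → ℝ) :=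
  {fun _ => 1} ∪ {v | ∃ a : ℤ, |a| ≤ P s (k + 2) ∧ v = fun i : ℕ => mu (a + i)}

/-- the weights of the other model -/
def V1 (_ : ℕ) : Set (ℕ → ℝ) := {fun _ => 1}

end

end Pool.Agent.Helper59.MB
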