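import Pool.Agent.Helper59.MB.Defs

/-!
# Project MB (MP_49a1ce_an): goals, part 1 (the model)

`P k` is `P s k = 2 ^ s k`. In the docstrings `w`, `w'` are one-sided words, `y` two-sided sequences,
`E k l ρ = E s V m k l ρ`.  The list `[..]` after the name gives the goals that may be used as hypotheses.
-/

set_option autoImplicit false

open MeasureTheory Filter Topology Finset

namespace Pool.Agent.Helper59.MB

noncomputable section

/-! ## Locality -/

/-- **LOC** (1 h).  (a) The test `l` depends on the digits `< l` of the block of length `P l` which contains `i`;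
(b) shift by a multiple of `P k`, `l ≤ k`; (c) trivial.
Proof. Let `L = (spec l).1`. If the conditions `L ≤ l`, `L ≤ i % P l`, `i % P l + L < P l` hold, the places
`i - L + a`, `a < 2L + 1`, lie in the block `[P l * (i / P l), P l * (i / P l) + P l)` of `i` (there is no truncation
in `i - L`, as `L ≤ i % P l ≤ i`) and only digits `j < L ≤ l` are read: (a). (b) ` (P k * q + i) % P l = i % P l` because
`P l ∣ P k` (`s` monotone), also ` (P k * q + i) % P L = i % P L` if `L ≤ l`, and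
`P k * q + (i - L + a) = (P k * q + i) - L + a` if `L ≤ i`. -/
def S_LOC : Prop := ∀ s : ℕ → ℕ, StrictMono s →
  (∀ (l i : ℕ) (w w' : Wd), (∀ a, a / P s l = i / P s l → ∀ j < l, w a j = w' a j) →
    ev s l w i = ev s l w' i) ∧
  (∀ (l k q i : ℕ) (w : Wd), l ≤ k → ev s l (from' (P s k * q) w) i = ev s l w (P s k * q + i)) ∧
  (∀ (l i : ℕ) (w : Wd), 0 ≤ ev s l w i ∧ ev s l w i ≤ 1)

/-- **LOP** (1 h) [LOC].  Locality of good words and of the maps `Phi`.
Proof. (a) The sums in `GoodW` involve `ev s l w i`, `l ≤ k`, `i < P (k+1)`; by LOC (a) this depends on digits `< l ≤ k`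
in the block of level `l` of `i`, which is contained in `[0, P (k+1))` (`P l ∣ P (k+1)`). (b) Induction on `k`:
`cat s k Φ w i`, `i < P (k+1)`, is `Φ` of the word from `P k * (i / P k)` at the place `i % P k < P k`: it depends on `w` on
`[0, P (k+1))` only (`P k ∣ P (k+1)`), and so does the case distinction, by (a). (c) Induction on `k`: digits `≥ k + 1` of
`Phi (k+1) w` are those of `cat s k (Phi k) w`, and `Phi k (from' a w) ρ j = w (a + ρ) j` for `j ≥ k`, with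
`a + ρ = P k * (i / P k) + i % P k = i`. -/
def S_LOP : Prop := ∀ (s : ℕ → ℕ) (V : ℕ → Set (ℕ → ℝ)) (m : Measure A) [IsProbabilityMeasure m],
  StrictMono s →
  (∀ (k : ℕ) (η : ℝ) (e : ℕ → ℕ → ℝ) (w w' : Wd), (∀ a < P s (k + 1), ∀ j < k, w a j = w' a j) →
    (GoodW s V k η e w ↔ GoodW s V k η e w')) ∧
  (∀ (k : ℕ) (w w' : Wd), (∀ a < P s k, w a = w' a) →
    ∀ i < P s k, Phi s V m k w i = Phi s V m k w' i) ∧
  (∀ (k : ℕ) (w : Wd) (i j : ℕ), k ≤ j → Phi s V m k w i j = w i j)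

/-- **LCS** (1 h).  `Phi k`, `E k` depend on `s 0, .., s k` only; `GoodW` of level `k + 1` and `Adm k` on `s 0, .., s (k+1)`.
Proof. `ev s l`, `l ≤ k`, uses `s l` and `s L` with `L = (spec l).1 ≤ l` (if `L > l` it is `0`). Induction on `k` for `Phi`;
`GoodW` uses the function `e` at `l ≤ k` only (so `mean s m Φ` and `mean s' m Φ`, which agree for `l ≤ k`, give the same
good words). -/
def S_LCS : Prop := ∀ (s s' : ℕ → ℕ) (V : ℕ → Set (ℕ → ℝ)) (m : Measure A)
  [IsProbabilityMeasure m] (k : ℕ), (∀ i ≤ k, s i = s' i) →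
  (∀ l ≤ k, ∀ (w : Wd) (i : ℕ), ev s l w i = ev s' l w i) ∧
  Phi s V m k = Phi s' V m k ∧
  (∀ l ≤ k, ∀ ρ : ℕ, E s V m k l ρ = E s' V m k l ρ) ∧
  (s (k + 1) = s' (k + 1) →
    (∀ w : Wd, Good s V m k w ↔ Good s' V m k w) ∧ (∀ w : Wd, HGood s V m k w ↔ HGood s' V m k w) ∧
    (Adm s V m k ↔ Adm s' V m k))

/-- **MEA** (1 h).  Measurability.
Proof. `ev s l w i` is a function of finitely many coordinates `w a j` (an `if` with a finite conjunction of
measurable conditions). `GoodW` is a countable conjunction of conditions `|finite sum| ≤ const` with measurable sums.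
`cat`, `Phi`: coordinatewise, induction on `k`; `Measurable.ite`. -/
def S_MEA : Prop := ∀ (s : ℕ → ℕ) (V : ℕ → Set (ℕ → ℝ)) (m : Measure A) [IsProbabilityMeasure m],
  (∀ k, (V k).Countable) →
  (∀ l i : ℕ, Measurable fun w : Wd => ev s l w i) ∧
  (∀ (k : ℕ) (η : ℝ) (e : ℕ → ℕ → ℝ), MeasurableSet {w : Wd | GoodW s V k η e w}) ∧
  (∀ (k : ℕ) (Φ : Wd → Wd), Measurable Φ → Measurable (cat s k Φ)) ∧
  (∀ k : ℕ, Measurable (Phi s V m k))

/-- **BLK** (0.7 h).  Coordinates taken from an i.i.d. family along an injection are i.i.d.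
Proof. `Measure.eq_infinitePi`: for a finite set `S` of `ι` and measurable sets `t i` the preimage of the box is the
box over `S.image f` (with the sets `t i` at `f i`; `t' j = t (invFun f j)`); `Measure.infinitePi_pi`. -/
def S_BLK : Prop := ∀ (Z : Type) [MeasurableSpace Z] (m : Measure Z) [IsProbabilityMeasure m]
  (ι κ : Type) (f : ι → κ), Function.Injective f →
  (Measure.infinitePi fun _ : κ => m).map (fun w i => w (f i)) = Measure.infinitePi fun _ : ι => m

/-- **HOE** (1.5 h).  Hoeffding for functions of disjoint blocks of coordinates.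
Proof. The coordinates `w ↦ w i` are independent under `Q m` (`ProbabilityTheory.iIndepFun_infinitePi`), hence so are
the tuples of the coordinates of the blocks `[B q, B (q+1))`, `q < n` (`iIndepFun.finsets` or `iIndepFun.finsets_comp`), and
`F q` is a measurable function of the tuple of the block `q` (compose with the word which is the block at its place and
constant elsewhere). `F q` takes values in `[-c, c]` and has mean `0`: sub-Gaussian with parameter
` ((c - (-c)) / 2)^2 = c^2` (`ProbabilityTheory.hasSubgaussianMGF_of_mem_Icc_of_integral_eq_zero`).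
`ProbabilityTheory.HasSubgaussianMGF.measure_sum_range_ge_le_of_iIndepFun` (or `measure_sum_ge_le_of_iIndepFun`)
for `F` and for `-F`, union of the two events. (If `B = 0` all `F q` are constant, mean `0`, so `0`: if `t = 0` the right side is
`2`, if `t > 0` the left side is `0`; this case is also covered by the general argument.) -/
def S_HOE : Prop := ∀ (m : Measure A) [IsProbabilityMeasure m] (n B : ℕ) (F : ℕ → Wd → ℝ)
  (c t : ℝ), 0 < n → 0 < c → 0 ≤ t → (∀ q, Measurable (F q)) →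
  (∀ q < n, ∀ w w' : Wd, (∀ j < B, w (B * q + j) = w' (B * q + j)) → F q w = F q w') →
  (∀ q < n, ∀ w, |F q w| ≤ c) → (∀ q < n, ∫ w, F q w ∂(Q m) = 0) →
  (Q m).real {w | t ≤ |∑ q ∈ range n, F q w|} ≤ 2 * Real.exp (-(t ^ 2) / (2 * n * c ^ 2))

/-- **PRB** (2 h) [LOC, LOP, MEA, BLK, HOE].  The probability of words which are not half-good.
Proof. Union bound over `l ≤ k` (`k + 1` values), `i₁, i₂ ≤ P (k+1)`, `v ∈ V k`. Fix these. Let `B = P k`,
`n = P (k+1) / P k` (so `B n = P (k+1)`), `Φ = Phi k`, and `F q w` = the sum over the `i` in `Ico i₁ i₂` with `i / B = q` of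
` (ev l (cat k Φ w) i - E k l (i % B)) * v i`. The sum in `GoodW` is the sum of `F q`, `q < n`. `|F q| ≤ B` (`0 ≤ ev ≤ 1`, so
`0 ≤ E ≤ 1`; at most `B` terms). `F q` depends on the letters in `[B q, B (q+1))` (LOC a, LOP b), measurable (MEA).
Mean `0`: for `i = B q + ρ`, `ev l (cat k Φ w) i = ev l (from' (B q) (cat k Φ w)) ρ` (LOC b)
`= ev l (Φ (from' (B q) w)) ρ` (LOC a: the two words agree on `[0, B)`, because
`cat k Φ w (B q + j) = Φ (from' (B q) w) j` for `j < B`), and `from' (B q) w` has the law `Q m` (BLK), so the integral is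
`E k l ρ`. HOE with `c = B`, `t = P (k+1) / (2 (k+1))`: `t² / (2 n c²) = (P (k+1) / P k) / (8 (k+1)²)`. -/
def S_PRB : Prop := ∀ (s : ℕ → ℕ) (V : ℕ → Set (ℕ → ℝ)) (m : Measure A) [IsProbabilityMeasure m],
  StrictMono s → (∀ k, (V k).Finite) → (∀ k, ∀ v ∈ V k, ∀ i, |v i| ≤ 1) → ∀ k : ℕ,
  (Q m).real {w | ¬ HGood s V m k (cat s k (Phi s V m k) w)} ≤
    2 * ((k + 1) * (P s (k + 1) + 1) ^ 2 * (V k).ncard *
      Real.exp (-((P s (k + 1) : ℝ) / P s k) / (8 * (k + 1) ^ 2)))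

/-- **INQ** (0.8 h).  A numerical inequality for `s0 k = (k + 10)²`.
Proof. `P (k+1) / P k = 2^(2k+21)`. The claim is `M ≤ exp (2^(2k+18) / (k+1)²)`,
`M = 2^(k+2) * P (k+1) * 2 * (k+1) * (P (k+1) + 1)^2 * (2 P (k+2) + 2)`; with `k + 1 ≤ 2^k`, `P (k+1) + 1 ≤ 2 P (k+1)`,
`2 P (k+2) + 2 ≤ 4 P (k+2)`: `M ≤ 2^(2k + 7 + 3 (k+11)² + (k+12)²) ≤ 2^(4 (k+12)² + 2k + 7)`, and
`4 (k+12)² + 2k + 7 ≤ 4 (k+13)² ≤ 676 (k+1)² `, ` (k+1)^4 ≤ 6 * 4^k` (induction), so the exponent is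
`≤ 676 * 6 * 4^k / (k+1)² ≤ 2^(2k+18) / (k+1)²`; `2^x ≤ exp x`. Second part: `k + 1 ≤ 2^k` and
`2 * 2^k * 2^((k+10)²) ≤ 2^((k+11)²)`. -/
def S_INQ : Prop := ∀ k : ℕ,
  2 * ((k + 1) * (P s0 (k + 1) + 1) ^ 2 * (2 * P s0 (k + 2) + 2 : ℝ) *
    Real.exp (-((P s0 (k + 1) : ℝ) / P s0 k) / (8 * (k + 1) ^ 2))) ≤
      (1 / 2) ^ (k + 2) / P s0 (k + 1) ∧
  2 * (k + 1) * P s0 k ≤ P s0 (k + 1)

/-- **PAR** (0.7 h) [PRB, INQ].  The assumptions hold for the parameters of the Moebius disjoint model.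
Proof. `VM s0 k` is the union of a singleton and of the image of the `2 P (k+2) + 1` integers `|a| ≤ P (k+2)`: finite,
`ncard ≤ 2 P (k+2) + 2`; `|mu a| ≤ 1`. `Adm` from PRB and INQ. -/
def S_PAR : Prop := ∀ (m : Measure A) [IsProbabilityMeasure m] (K : ℕ), Par s0 (VM s0) m K

/-- **INV** (1.2 h) [LOC, LOP].  The aligned blocks of level `k + 1 ≤ K` of `Phi K w` are good.
Proof. Induction on `K`. Let `g = gw K (Phi K)`; by `Adm K` the half-good words have positive measure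
(` (1/2)^(K+2) / P (K+1) < 1`), so `Classical.epsilon_spec` says that `g` is half-good, hence good of level `K + 1`;
`g = cat K (Phi K) w₀`. `Phi (K+1) w` is `cat K (Phi K) w` (good), or agrees with `g` in the digits `< K + 1`. Case `k = K`
(then `q = 0`): good by LOP (a) (digits `< K`). Case `k < K`: all digits `< k ≤ K` of `Phi (K+1) w` are those of
`cat K (Phi K) u`, `u ∈ {w, w₀}`; the block of level `k + 1` number `q` is contained in one block of level `K`, number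
`q' = P (k+1) q / P K`; there `cat K (Phi K) u` is `Phi K (from' (P K q') u)`, and the induction hypothesis and LOP (a)
apply (`P (k+1) ∣ P K`). -/
def S_INV : Prop := ∀ (s : ℕ → ℕ) (V : ℕ → Set (ℕ → ℝ)) (m : Measure A) [IsProbabilityMeasure m]
  (K : ℕ), Par s V m K → ∀ (w : Wd) (k q : ℕ), k < K → P s (k + 1) * (q + 1) ≤ P s K →
  Good s V m k (from' (P s (k + 1) * q) (Phi s V m K w))

/-- **MNS** (1 h) [LOC, LOP, MEA, BLK].  The expected values change little with the level; and `0 ≤ E ≤ 1`.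
Proof. One step: `|E (k+1) l ρ - E k l (ρ % P k)| ≤ 2^(-(k+2))` for `l ≤ k < K`, `ρ < P (k+1)`: `Phi (k+1) w = cat k (Phi k) w`
unless `cat k (Phi k) w` is not good, hence not half-good: probability `≤ 2^(-(k+2)) / P (k+1)` (`Adm k`); `0 ≤ ev ≤ 1`; and
the integral of `ev l (cat k (Phi k) w) ρ` is `E k l (ρ % P k)` (as in PRB: LOC b, LOC a, BLK). Sum of the steps:
`∑_{i=j}^{k-1} 2^(-(i+2)) ≤ 2^(-(j+1))`; `ρ % P i % P j = ρ % P j`. -/
def S_MNS : Prop := ∀ (s : ℕ → ℕ) (V : ℕ → Set (ℕ → ℝ)) (m : Measure A) [IsProbabilityMeasure m]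
  (K : ℕ), Par s V m K →
  (∀ k l ρ : ℕ, 0 ≤ E s V m k l ρ ∧ E s V m k l ρ ≤ 1) ∧
  ∀ k j l ρ : ℕ, l ≤ j → j ≤ k → k ≤ K → ρ < P s k →
    |E s V m k l ρ - E s V m j l (ρ % P s j)| ≤ (1 / 2) ^ (j + 1)

/-! ## Phases -/

/-- **PHS** (1 h).  Residues of 2-adic integers.
Proof. `PadicInt.toZModPow` is a ring homomorphism, `ZMod.val`; `PadicInt.zmod_cast_comp_toZModPow` /
`cast_toZModPow` for different `k`; `ph k (t + n)` and `ph k t + n` have the same image in `ZMod (2^k)`.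
Continuity: locally constant, the fibres are the cosets of the open ideal `2^k ℤ_2` (`PadicInt.ker_toZModPow`,
`PadicInt.norm_le_pow_iff_mem_span_pow`), or `PadicInt.continuous_toZModPow` if available. Separation:
`PadicInt.ext_of_toZModPow`. -/
def S_PHS : Prop :=
  (∀ (k : ℕ) (t : ℤ_[2]), ph k t < 2 ^ k) ∧
  (∀ (k : ℕ) (t : ℤ_[2]) (n : ℤ), ((ph k (t + (n : ℤ_[2])) : ℕ) : ℤ) = ((ph k t : ℤ) + n) % 2 ^ k) ∧
  (∀ (k j : ℕ) (t : ℤ_[2]), j ≤ k → ph k t % 2 ^ j = ph j t) ∧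
  (∀ k : ℕ, Continuous (ph k)) ∧
  (∀ t t' : ℤ_[2], (∀ k, ph k t = ph k t') → t = t') ∧
  (∀ k : ℕ, ph k 0 = 0)

/-- **HAR** (1 h) [PHS].  The Haar probability measure.
Proof. `addHaarMeasure ⊤` gives measure `1` to `⊤ = univ` and is translation invariant
(`measurePreserving_add_right`). The `2^k` sets `{ph k t = r}` are translates of each other and cover `ℤ_2`: each has
measure `2^(-k)`. `BM m` is a product of two probability measures; the shift of `ℤ → A` preserves the product measure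
(`infinitePi_map_piCongrLeft` or BLK with `n ↦ n + 1`); `MeasurePreserving.prod`. -/
def S_HAR : Prop :=
  IsProbabilityMeasure haar2 ∧ MeasurePreserving (fun t : ℤ_[2] => t + 1) haar2 haar2 ∧
  (∀ k r : ℕ, r < 2 ^ k → haar2 {t | ph k t = r} = (2 ^ k : ENNReal)⁻¹) ∧
  ∀ (m : Measure A) [IsProbabilityMeasure m], IsProbabilityMeasure (BM m) ∧
    MeasurePreserving TB (BM m) (BM m)

/-- **XCL** (0.8 h) [LOP, PHS].  `X` is closed.
Proof. It is an intersection over `k`, `n` of the sets `{x | ph (k+1) (x.2 + n) = 0 → Good k (fromZ n x.1)}`; each of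
these is clopen: `ph` is continuous (discrete values), and `Good k w` depends on finitely many digits (LOP a). -/
def S_XCL : Prop := ∀ (s : ℕ → ℕ) (V : ℕ → Set (ℕ → ℝ)) (m : Measure A) [IsProbabilityMeasure m],
  StrictMono s → IsClosed (X s V m)

/-! ## Averages on the model -/

/-- **THE** (0.8 h) [LOC, PHS].  The test along an orbit, read in an aligned block which begins at `b`.
Proof. Put `n = b + i`, `ρ = ph (s l) (x.2 + n)`. As `s l ≤ s k` and `x.2 + b` is `0` modulo `2^(s k)`: `ρ = i % P l`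
(PHS). `TB^[n] x = (y(· + n), x.2 + n)`, so `Th l (TB^[n] x) = ev l (fromZ (n - ρ) y) ρ`, and
`fromZ (n - ρ) y = from' (P l * (i / P l)) (fromZ b y)`, so LOC (b) with `k := l` gives
`ev l (fromZ b y) (P l * (i / P l) + i % P l)`. -/
def S_THE : Prop := ∀ s : ℕ → ℕ, StrictMono s → ∀ (l k n i : ℕ) (b : ℤ) (x : Bas), l ≤ k →
  (n : ℤ) = b + i → ph (s k) (x.2 + (b : ℤ_[2])) = 0 →
  Th s l ((⇑TB)^[n] x) = ev s l (fromZ b x.1) i ∧ ph (s l) (x.2 + (n : ℤ_[2])) = i % P s l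

/-- **SUM** (1.5 h) [LOC, PHS, THE].  The main estimate.
Proof. Let `M = ph (k+1) x.2`, `R = P (k+1)`. For `1 ≤ n ≤ N` let `q = (M + n) / R` and `b = R q - M`, `i = (M + n) % R`, so
`n = b + i`, `ph (k+1) (x.2 + b) = 0`, `-R < b ≤ N`. By THE the term of `n` is
` (ev l (fromZ b y) i - E k l (i % P k)) * u (b + i)`. For fixed `q` the `n` in `[1, N]` with this `q` are those with
`i ∈ Ico i₁ i₂`, `i₁ ≤ i₂ ≤ R`; `fromZ b y` is good of level `k + 1` (`x ∈ X`) and the weight `i ↦ u (b + i)` is in `V k`: the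
absolute value of the sum of these terms is `≤ R / (k+1)`. The number of values `q` is at most
` (M + N) / R + 1 ≤ N / R + 2`. -/
def S_SUM : Prop := ∀ (s : ℕ → ℕ) (V : ℕ → Set (ℕ → ℝ)) (m : Measure A) [IsProbabilityMeasure m],
  StrictMono s → ∀ x ∈ X s V m, ∀ (l k N : ℕ) (u : ℤ → ℝ), l ≤ k →
  (∀ a : ℤ, -(P s (k + 1) : ℤ) < a → a ≤ N → (fun i : ℕ => u (a + i)) ∈ V k) →
  |∑ n ∈ Icc 1 N, (Th s l ((⇑TB)^[n] x) - E s V m k l (ph (s k) (x.2 + (n : ℤ_[2])))) * u n| ≤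
    (N + 2 * P s (k + 1)) / (k + 1)

/-- **AVG** (1.2 h) [SUM, MNS, PHS].  Uniform averages of the tests.
Proof. Let `c_k` be the mean of `E k l ρ` over `ρ < P k`. By SUM (`u = 1`) and since `n ↦ ph (s k) (x.2 + n)` runs through
all residues in each `P k` consecutive places (`0 ≤ E ≤ 1`):
`|∑_{n ≤ N} Th l (TB^n x) - c_k N| ≤ (N + 2 P (k+1)) / (k+1) + P k` for all `k ≥ l`, `x ∈ X`, `N`. `X` is nonempty or there is
nothing to prove; then `|c_k - c_k'| ≤ 1/(k+1) + 1/(k'+1)` (divide by `N → ∞`), so `c_k` is a Cauchy sequence with a limit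
`c`, `|c_k - c| ≤ 1/(k+1)`, and the claim follows: choose `k` with `3/(k+1) ≤ ε/2`, then `N₀`. -/
def S_AVG : Prop := ∀ (s : ℕ → ℕ) (V : ℕ → Set (ℕ → ℝ)) (m : Measure A) [IsProbabilityMeasure m],
  (∀ K, Par s V m K) → ∀ l : ℕ, ∃ c : ℝ, ∀ ε > 0, ∃ N₀ : ℕ, ∀ N ≥ N₀, ∀ x ∈ X s V m,
  |∑ n ∈ Icc 1 N, Th s l ((⇑TB)^[n] x) - c * N| ≤ ε * N

/-- the summatory function of `μ` over a progression -/
def Mp (k r : ℕ) (x : ℝ) : ℝ := ∑ n ∈ (Icc 1 ⌊x⌋₊).filter (fun n => n % 2 ^ k = r), mu n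

/-- **NTA** (2 h).  The Mellin transform of the summatory function of `μ` over an odd progression modulo `2^k`.
Proof. Let `q = 2^k`. By orthogonality of the Dirichlet characters modulo `q` (`DirichletCharacter` sum formulas in
`Mathlib/NumberTheory/DirichletCharacter/Orthogonality.lean`) the indicator of `n ≡ r` is
` (1/φ(q)) ∑_χ χ(r)⁻¹ χ(n)`. For `Re s > 1`: `∑ χ(n) μ(n) n^(-s) = 1 / L(s, χ)` (Mathlib/NumberTheory/LSeries/Dirichlet.lean:
`DirichletCharacter.LSeries.mul_mu_eq_one`), and `∑ a_n n^(-s) = s ∫_1^∞ (∑_{n ≤ x} a_n) x^(-s-1) dx`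
(`LSeries_eq_mul_integral` in Mathlib/NumberTheory/LSeries/SumCoeff.lean). With `s = z + 1`:
`g z = (1/φ(q)) ∑_χ χ(r)⁻¹ / ((z+1) L(z+1, χ))`; analytic for `Re z ≥ 0`, because `L(s, χ) ≠ 0` for `Re s ≥ 1`
(`DirichletCharacter.LFunction_ne_zero_of_one_le_re`), `L(s, χ)` entire for `χ ≠ 1`
(`DirichletCharacter.differentiable_LFunction`); for `χ = 1` write `1 / L(s, 1) = (s - 1) / ((s-1) L(s, 1))`, and the function
` (s-1) L(s, 1)` is entire with nonzero value at `1` (`DirichletCharacter.LFunctionTrivChar₁`); choose this form of `g` also at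
`z = 0`. Differentiable on an open set implies `AnalyticAt`. -/
def S_NTA : Prop := ∀ k r : ℕ, Odd r → r < 2 ^ k → ∃ g : ℂ → ℂ,
  (∀ z : ℂ, 0 ≤ z.re → AnalyticAt ℂ g z) ∧
  ∀ z : ℂ, 0 < z.re → g z = ∫ x in Set.Ioi (1 : ℝ), (x : ℂ) ^ (-z - 1) * ((Mp k r x / x : ℝ) : ℂ)

/-- **NTB** (1.5 h).  A Tauberian theorem: bounded coefficients.
Proof. `f x = (∑_{n ≤ x} a n) / x` is measurable and bounded by `1` for `x ≥ 1`. Newman's theorem `Helper56.newman` (file
`Pool/Agent/Helper56/Newman.lean`, exactly these hypotheses) says that `∫_1^X f(x) dx / x` converges as `X → ∞`. Suppose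
`|∑_{n ≤ N} a n| > ε N` for arbitrarily large `N`, say `> ε N` (or `< -ε N`) infinitely often, `ε ≤ 1`. For
`x ∈ [N, (1 + ε/4) N]`: `∑_{n ≤ x} a n ≥ ε N - (x - N) - 1 ≥ ε N / 2` if `N ≥ 4/ε`, so `f x ≥ ε/4` there and
`∫_N^{(1+ε/4)N} f dx/x ≥ (ε/4) log (1 + ε/4)`: contradiction to the Cauchy criterion. -/
def S_NTB : Prop := ∀ (a : ℕ → ℝ), (∀ n, |a n| ≤ 1) → ∀ g : ℂ → ℂ,
  (∀ z : ℂ, 0 ≤ z.re → AnalyticAt ℂ g z) →
  (∀ z : ℂ, 0 < z.re → g z = ∫ x in Set.Ioi (1 : ℝ), (x : ℂ) ^ (-z - 1) *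
    (((∑ n ∈ Icc 1 ⌊x⌋₊, a n) / x : ℝ) : ℂ)) →
  ∀ ε > 0, ∃ N₀ : ℕ, ∀ N ≥ N₀, |∑ n ∈ Icc 1 N, a n| ≤ ε * N

/-- **NT** (1.2 h) [NTA, NTB].  The Moebius function has mean `0` along the progressions modulo `2^k`.
Proof. It suffices to find `N₀` for each `r < 2^k` (finitely many; for `r ≥ 2^k` the sum is empty). Odd `r < 2^k`, `k ≥ 1`:
NTA and NTB with `a n = mu n` if `n % 2^k = r` and `0` otherwise. `4 ∣ r`, `k ≥ 2`: all terms are `0`. `r = 2 r'`, `r'` odd, `k ≥ 2`: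
`n = 2 n'` with `n' % 2^(k-1) = r'`, `μ(2 n') = -μ(n')` (`n'` odd), so the sum is minus that of the class `r'` modulo `2^(k-1)`
up to `N/2`. `k = 0`, `k = 1`: sum of the classes modulo `4`. -/
def S_NT : Prop := ∀ (k : ℕ) (ε : ℝ), 0 < ε → ∃ N₀ : ℕ, ∀ N ≥ N₀, ∀ r : ℕ,
  |∑ n ∈ (Icc 1 N).filter (fun n => n % 2 ^ k = r), mu n| ≤ ε * N

/-- **MDT** (1.2 h) [SUM, MNS, PHS, PAR, NT].  The tests on the first model are uniformly orthogonal to `μ`.
Proof. Let `j ≥ l`. For large `N` let `k` be such that `P (k+1) ≤ N ≤ P (k+2)`, `k ≥ j`. SUM with `u = mu` (the weights are in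
`VM s0 k`: `|a| ≤ P (k+2)`, as `-P (k+1) < a ≤ N`) and MNS:
`|∑ Th μ| ≤ 3N/(k+1) + |∑ E k l (ph_k(t+n)) μ(n)| ≤ 3N/(k+1) + N (1/2)^(j+1) + |∑ E j l (ph_j(t+n)) μ(n)|` with
`ph_j(t + n) = ph_k(t + n) % P j`, and the last sum is `∑_{r < P j} E j l ((r + ph_j t) % P j) * ∑_{n ≤ N, n % P j = r} μ(n)`,
`≤ P j * ε' N` for `N ≥ N₀(j, ε')` by NT. Choose `j`, then `ε'`, then `N₀` (`k → ∞` with `N`). -/
def S_MDT : Prop := ∀ (m : Measure A) [IsProbabilityMeasure m] (l : ℕ) (ε : ℝ), 0 < ε →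
  ∃ N₀ : ℕ, ∀ N ≥ N₀, ∀ x ∈ X s0 (VM s0) m,
  |∑ n ∈ Icc 1 N, Th s0 l ((⇑TB)^[n] x) * mu n| ≤ ε * N

/-- **CYL** (0.8 h) [PHS].  The indicator of a cylinder and the test which belongs to it.
Proof. `L = c.1`. If `L ≤ ρ` and `ρ + L < P l` for `ρ = ph (s l) z.2`, then `Fc c z = Th l z`: both are `1` iff
`ph (s L) z.2 = c.2.1` (`ρ % P L = ph (s L) z.2`, PHS) and the digits are right (`fromZ (-ρ) z.1 (ρ - L + a) = z.1 (a - L)`).
Otherwise the difference is at most `1`. The number of `n ∈ [1, N]` with `ph (s l) (x.2 + n)` in a set of at most `2L`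
residues modulo `P l` is `≤ 2L (N / P l + 1)`. -/
def S_CYL : Prop := ∀ s : ℕ → ℕ, StrictMono s → ∀ (c : Sp) (l : ℕ), spec l = c → c.1 ≤ l →
  ∀ (x : Bas) (N : ℕ),
  ∑ n ∈ Icc 1 N, |Fc s c ((⇑TB)^[n] x) - Th s l ((⇑TB)^[n] x)| ≤ 2 * c.1 * ((N : ℝ) / P s l + 1)

/-- **FCA** (0.8 h) [AVG, CYL].  Uniform averages of the cylinder functions. Proof. There are infinitely many `l` with
`spec l = c` (`l = Nat.pair (encode c) i`, `i` arbitrary). By CYL and AVG (constant `c_l`):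
`|∑ Fc - c_l N| ≤ ε N + 2L (N / P l + 1)`; so the `c_l` (`spec l = c`) form a Cauchy sequence; let `c'` be the limit (if `X` is
nonempty; otherwise nothing to prove). The second part: CYL and MDT. -/
def S_FCA : Prop :=
  (∀ (s : ℕ → ℕ) (V : ℕ → Set (ℕ → ℝ)) (m : Measure A) [IsProbabilityMeasure m],
    (∀ K, Par s V m K) → ∀ c : Sp, ∃ c' : ℝ, ∀ ε > 0, ∃ N₀ : ℕ, ∀ N ≥ N₀, ∀ x ∈ X s V m,
    |∑ n ∈ Icc 1 N, Fc s c ((⇑TB)^[n] x) - c' * N| ≤ ε * N)

/-- **FCM** (0.6 h) [MDT, CYL].  See FCA: for `l` with `spec l = c`, `2L / P l ≤ ε/2`, use MDT and CYL (`|mu| ≤ 1`). -/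
def S_FCM : Prop := ∀ (m : Measure A) [IsProbabilityMeasure m] (c : Sp) (ε : ℝ), 0 < ε →
  ∃ N₀ : ℕ, ∀ N ≥ N₀, ∀ x ∈ X s0 (VM s0) m,
  |∑ n ∈ Icc 1 N, Fc s0 c ((⇑TB)^[n] x) * mu n| ≤ ε * N

/-- **DNS** (1.5 h) [PHS].  Cylinder functions are dense.
Proof. For `L` let `x ~_L x'` mean: `ph (s L) x.2 = ph (s L) x'.2` and `x.1 n j = x'.1 n j` for `|n| ≤ L`, `j < L`. The
relations `~_L` are clopen, decreasing in `L` and their intersection is the equality (`s L → ∞`, PHS). By compactness of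
`K × K` there is `L` with `x ~_L x' → |f x - f x'| < ε` (the closed sets `{(x, x') | x ~_L x', |f x - f x'| ≥ ε}` decrease to
the empty set). The cylinders ` (L, r, S)`, `r < P L`, `S ⊆ range (2L+1) ×ˢ range L`, are the classes of `~_L`; let `a c` be the
value of `f` at a point of `K` in the cylinder `c` (`0` if there is none). -/
def S_DNS : Prop := ∀ s : ℕ → ℕ, StrictMono s → ∀ K : Set Bas, IsClosed K → ∀ (f : C(K, ℝ)) (ε : ℝ),
  0 < ε → ∃ (J : Finset Sp) (a : Sp → ℝ), ∀ x : K, |f x - ∑ c ∈ J, a c * Fc s c x| ≤ ε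

/-- **UNI** (1 h).  Convergence of the averages of all continuous functions to constants implies unique ergodicity.
Proof. `∫ f dν = ∫ (1/N) ∑_{n=1}^N f ∘ T^n dν → c_f` by dominated convergence, for every invariant probability measure
`ν`; so two of them have the same integrals of all continuous functions
(`MeasureTheory.ext_of_forall_integral_eq_of_IsFiniteMeasure`). -/
def S_UNI : Prop := ∀ (Y : Type) [MetricSpace Y] [CompactSpace Y] [MeasurableSpace Y]
  [BorelSpace Y] (T : Y → Y), Continuous T →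
  (∀ f : C(Y, ℝ), ∃ c : ℝ, ∀ ε > 0, ∃ N₀ : ℕ, ∀ N ≥ N₀, ∀ x : Y,
    |∑ n ∈ Icc 1 N, f (T^[n] x) - c * N| ≤ ε * N) →
  ∀ ν : Measure Y, IsProbabilityMeasure ν → MeasurePreserving T ν ν → UE T ν

/-- **XUE** (1 h) [FCA, FCM, DNS].  All continuous functions on the models.
Proof. `f = ∑ a_c Fc + error ≤ ε'` by DNS (`K = X`, closed by hypothesis); the finite sum by FCA (FCM), the error
contributes `≤ ε' N`. For the constant: `c_f` = limit of the constants of the approximations (Cauchy), or apply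
completeness: the set of `f` with the property is closed. ` (⇑(TX ..))^[n] x` has the underlying point ` (⇑TB)^[n] x`. -/
def S_XUE : Prop :=
  (∀ (s : ℕ → ℕ) (V : ℕ → Set (ℕ → ℝ)) (m : Measure A) [IsProbabilityMeasure m],
    (∀ K, Par s V m K) → IsClosed (X s V m) → ∀ f : C(X s V m, ℝ), ∃ c : ℝ, ∀ ε > 0,
    ∃ N₀ : ℕ, ∀ N ≥ N₀, ∀ x : X s V m, |∑ n ∈ Icc 1 N, f ((⇑(TX s V m))^[n] x) - c * N| ≤ ε * N) ∧
  (∀ (m : Measure A) [IsProbabilityMeasure m], IsClosed (X s0 (VM s0) m) →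
    UMD (⇑(TX s0 (VM s0) m)))

/-! ## The isomorphism -/

/-- **PSA** (1.2 h) [LOP, PHS, MEA, BLK, HAR].  The approximations `psi k`.
Proof. (a) LOP (c): `Phi k w ρ j = w ρ j` for `j ≥ k`, and `fromZ (n - ρ) w ρ = w n`. (b) ` (TB x).2 + n = x.2 + (n + 1)`
and `fromZ (n - ρ) (TB x).1 = fromZ (n + 1 - ρ) x.1`. (c) Piecewise over the finitely many values of the continuous
function `ph`, `Phi k` is measurable (MEA). (d) Let `ρ' = ph (k+1) (t + n)`, `ρ = ph k (t + n) = ρ' % P k`, and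
`u = fromZ (n - ρ') x.1` the word of the block of level `k + 1`. If `cat k (Phi k) u` is good, then
`psi (k+1) = cat k (Phi k) u ρ' = Phi k (from' (P k * (ρ' / P k)) u) ρ = psi k`. For fixed `t` the word `u` has the law `Q m`
(BLK with `i ↦ n - ρ' + i`), so by `Adm k` the probability is `≤ 2^(-(k+2)) / P (k+1)`; integrate over `t`
(`Measure.prod_apply`). -/
def S_PSA : Prop := ∀ (s : ℕ → ℕ) (V : ℕ → Set (ℕ → ℝ)) (m : Measure A) [IsProbabilityMeasure m],
  (∀ K, Par s V m K) →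
  (∀ (k : ℕ) (w : ℤ → A) (t : ℤ_[2]) (n : ℤ) (j : ℕ), k ≤ j → psi s V m k w t n j = w n j) ∧
  (∀ (k : ℕ) (x : Bas) (n : ℤ),
    psi s V m k (TB x).1 (TB x).2 n = psi s V m k x.1 x.2 (n + 1)) ∧
  (∀ (k : ℕ) (n : ℤ), Measurable fun x : Bas => psi s V m k x.1 x.2 n) ∧
  (∀ (k : ℕ) (n : ℤ), (BM m).real {x | psi s V m (k + 1) x.1 x.2 n ≠ psi s V m k x.1 x.2 n} ≤
    (1 / 2) ^ (k + 2))

/-- **PSB** (1.5 h) [LOP, PHS, INV, PSA].  The limit.
Proof. Borel-Cantelli (`measure_limsup_atTop_eq_zero` / `ae_eventually_notMem`) with PSA (d): for almost all `x`, for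
all `n` there is `K` with `psi k n = psi K n` for all `k ≥ K` (whole letters). For such `x`: `Psi x n = psi K n`, and for
`j ≥ K`, `psi K n j = x.1 n j` (PSA a). `Psi x ∈ X`: let `ph (k+1) (t + n) = 0`. Choose `K ≥ k + 1` which serves all places
`n, .., n + P (k+1) - 1`. These places lie in one aligned block of level `K` which begins at `b = n - P (k+1) * q`
(`q = ph K (t + n) / P (k+1)`; `ph K (t+n) % P (k+1) = 0`), and there `Psi x (n + i) = psi K (n + i)
= Phi K (fromZ b x.1) (P (k+1) q + i)`; INV and LOP (a). -/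
def S_PSB : Prop := ∀ (s : ℕ → ℕ) (V : ℕ → Set (ℕ → ℝ)) (m : Measure A) [IsProbabilityMeasure m],
  (∀ K, Par s V m K) → ∀ᵐ x ∂(BM m), Psi s V m x ∈ X s V m ∧
    ∀ n : ℤ, ∃ K : ℕ, ∀ j ≥ K, (Psi s V m x).1 n j = x.1 n j

/-- **DUP** (0.8 h).  `dupB` maps the base measure of `m` to that of `mdup m`; `dec` inverts `dupB` up to changes of
finitely many digits per letter.
Proof. `Measure.infinitePi_map_pi` and `Measure.map_prod_map`; measurability coordinatewise, `dec` is a countable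
combination. `dup a (Nat.pair e j) = a e`; if `y n j = (dup (x.1 n)) j` for all `j ≥ K` then `y n (Nat.pair e j) = x.1 n e` for
all `j ≥ K` (`Nat.right_le_pair`). -/
def S_DUP : Prop :=
  (∀ (m : Measure A) [IsProbabilityMeasure m], MeasurePreserving dupB (BM m) (BM (mdup m))) ∧
  Measurable dec ∧ (∀ x : Bas, dupB (TB x) = TB (dupB x)) ∧
  (∀ x y : Bas, y.2 = x.2 → (∀ n : ℤ, ∃ K : ℕ, ∀ j ≥ K, y.1 n j = (dupB x).1 n j) → dec y = x)

/-- **ISO** (1.5 h) [PSA, PSB, DUP, HAR].  The model is isomorphic to the base system.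
Proof. Let `F x = Psi (dupB x)`. By DUP and PSB, for `BM m`-almost all `x`: `F x ∈ X` and `dec (F x) = x`. `F` is measurable
(PSA c and the definition of `Psi`), `F (TB x) = TB (F x)` for all `x` (PSA b). `X` is measurable (closed) and nonempty; let
`G : Bas → X` be `F` with values in `X` (a fixed point of `X` where `F x ∉ X`). `ν = (BM m).map G`. `G (TB x) = TX (G x)` a.e.
(`TB_mem`), so `ν` is invariant (`BM m` is, HAR). `φ = dec ∘ Subtype.val`, `ψ = G`: `φ (G x) = x` a.e.; hence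
`G (φ z) = z` for `ν`-almost all `z` (`ae_map_iff`; the set is measurable), `ν.map φ = BM m`, and `φ (TX z) = TB (φ z)` for
`ν`-almost all `z`. -/
def S_ISO : Prop := ∀ (s : ℕ → ℕ) (V : ℕ → Set (ℕ → ℝ)) (m : Measure A) [IsProbabilityMeasure m],
  (∀ K, Par s V (mdup m) K) → IsClosed (X s V (mdup m)) →
  ∃ ν : Measure (X s V (mdup m)), IsProbabilityMeasure ν ∧
    MeasurePreserving (⇑(TX s V (mdup m))) ν ν ∧ Iso (⇑(TX s V (mdup m))) ν (⇑TB) (BM m)

/-- **MOD1** (1 h) [XCL, XUE, UNI, ISO, PAR].  Theorem 1.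
Proof. `Y = X s0 (VM s0) (mdup m)`, compact as a closed subset of the compact space `Bas`; a metric from
`TopologicalSpace.metrizableSpaceMetric` (instances: `Bas` is metrizable, the measurable space of the subtype is Borel).
UNI with the averages of XUE and the measure of ISO. -/
def S_MOD1 : Prop := ∀ (m : Measure A) [IsProbabilityMeasure m],
  ∃ (Y : Type) (_ : MetricSpace Y) (_ : CompactSpace Y) (_ : MeasurableSpace Y) (_ : BorelSpace Y)
    (T : Y ≃ₜ Y) (ν : Measure Y), UE (⇑T) ν ∧ Iso (⇑T) ν (⇑TB) (BM m) ∧ UMD (⇑T)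

end

end Pool.Agent.Helper59.MB
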