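import Pool.Agent.Helper59.MB.Goals1

/-!
# Project MB (MP_49a1ce_an): goals, part 2 (the key lemma and the model which is not Moebius disjoint)

`u : ℕ → ℤ` has values in `{-1, 0, 1}`; `past u n i = u (n - 1 - i)` for `i < n` and `0` for `i ≥ n`;
`Dv u e n = u n - e (past u n)`.
-/

set_option autoImplicit false

open MeasureTheory Filter Topology Finset

namespace Pool.Agent.Helper59.MB

noncomputable section

/-! ## The key lemma -/

/-- **KE1** (1 h).  The best predictor exists.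
Proof. For `p : ℕ → ℤ` let `I p` be the set of the `n ∈ [1, N]` with `past u n i = p i` for all `i < r`, and let `e p` be the
mean of `u` over `I p` (`0` if `I p = ∅`). It depends on `p 0, .., p (r-1)` only, `|e p| ≤ 1`. For `G` with `Loc r G` group the
sum over `n` by the class of `n` (`n ~ n'` iff the pasts agree below `r`, i.e. by the value of
`fun i : Fin r => past u n i`, `Finset.sum_fiberwise` or `sum_comp`-like lemmas): on a class `G (past u n)` and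
`e (past u n)` are constant and `∑ (u n - e) = 0`. -/
def S_KE1 : Prop := ∀ u : ℕ → ℤ, (∀ n, |u n| ≤ 1) → ∀ N r : ℕ, ∃ e : (ℕ → ℤ) → ℝ, Pred u N r e

/-- **KE2** (1 h).  Pigeonhole for the prediction errors.
Proof. Let `PE r = ∑_{n ≤ N} (u n - e r (past u n))²`. For `r ≤ r'`: `PE r = PE r' + ∑ (e r' - e r)²`, since
`u - e r = (u - e r') + (e r' - e r)` and `e r' - e r` is a function `G` with `Loc r' G` (the cross term is `0` by `Pred.orth`
for `r'`). So `∑_{j < M} ∑_n (e (j l + l) - e (j l))² = PE 0 - PE (M l) ≤ PE 0 ≤ ∑ (u n)² ≤ N` (the middle inequality: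
`∑ u² = PE 0 + ∑ (e 0)²` in the same way, `G = e 0`). One of the `M` terms is `≤ N / M`. -/
def S_KE2 : Prop := ∀ u : ℕ → ℤ, (∀ n, |u n| ≤ 1) → ∀ (N l M : ℕ) (e : ℕ → (ℕ → ℤ) → ℝ), 0 < M →
  (∀ r, Pred u N r (e r)) →
  ∃ j < M, ∑ n ∈ Icc 1 N, (e (j * l + l) (past u n) - e (j * l) (past u n)) ^ 2 ≤ (N : ℝ) / M

/-- **KE4** (2 h).  The prediction errors are almost uncorrelated with the past.
Proof. Write `D = Dv u e`, `|D n| ≤ 2`. (1) If `G` satisfies `Loc (r+l) G` and `|G (past u n)| ≤ B` for `1 ≤ n ≤ N`, then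
`|∑_{n ∈ [1,N]} D n G(past u n)| = |∑ (e' - e)(past u n) G| ≤ B η N` (`Pred.orth` for `e'`, then Cauchy-Schwarz:
` (∑ (e'-e)²)^(1/2) (∑ G²)^(1/2) ≤ η N^(1/2) B N^(1/2)`). (2) Telescoping: `∏_{i<l} x_i - 1 = ∑_{i<l} (∏_{i'<i} x_{i'}) (x_i - 1)`
(`Finset.prod_range_sub..`, or induction on `l`), `x_i = 1 + D(n+i) b_i / 2 ∈ [0, 2]`. (3) Fix `i < l`. For `m = n + i` the term is
`D m * G (past u m)` with `G p = (b_i / 2) ∏_{a=1}^{i} (1 + (p (a-1) - e (fun j => p (a + j))) b_{i-a} / 2)`: for `a ≤ i`,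
`m - a = n + (i - a) ≥ 1`, `past u m (a-1) = u (m - a)` and `past u m (a + j) = past u (m - a) j`. `Loc (r+l) G` as
`a + r ≤ i + r < r + l`. For all `m ≥ 1`, `|G (past u m)| ≤ 2^i / 2` (the entries of `past u m` are in `[-1, 1]`).
So the sum over all `m ∈ [1, N]` is at most `2^l η N` in absolute value; `m = n + i` with `n ∈ [1, N - l]` misses at most `l`
of these `m` (if `l ≤ N`: the `i` first and the `l - i` last ones; if `l > N` the sum over `n` is empty and `N ≤ l`), each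
contributing `≤ 2 * 2^i / 2 ≤ 2^l`. Sum over `i < l`: `l (2^l η N + l 2^l)`. -/
def S_KE4 : Prop := ∀ u : ℕ → ℤ, (∀ n, |u n| ≤ 1) → ∀ (N r l : ℕ) (e e' : (ℕ → ℤ) → ℝ) (η : ℝ),
  0 ≤ η → Pred u N r e → Pred u N (r + l) e' →
  ∑ n ∈ Icc 1 N, (e' (past u n) - e (past u n)) ^ 2 ≤ η ^ 2 * N →
  ∀ b : ℕ → ℝ, (∀ i, |b i| ≤ 1) →
  |∑ n ∈ Icc 1 (N - l), (∏ i ∈ range l, (1 + Dv u e (n + i) * b i / 2) - 1)| ≤
    l * 2 ^ l * (η * N + l)

/-- **KE5** (2.5 h) [BLK].  A random choice of letters.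
Proof. Use the probability density `H w = ∏_{n ∈ [1,N]} (1 + D n * g (w n) / 2) ≥ 0` with respect to `Q m`. The coordinates
are independent (`ProbabilityTheory.iIndepFun_infinitePi`, `iIndepFun.integral_prod_eq_prod_integral` or similar), so
`∫ H = 1`; `∫ g (w n) H = ∫ g (1 + D n g / 2) dm = D n * (∫ g²) / 2` for `n ∈ [1,N]`. For `n ∈ [1, N - l]`: `C (from' n w)` and
`∏_{i<l} (1 + D(n+i) g(w (n+i)) / 2)` depend on the coordinates in `[n, n + l)`, which is contained in `[1, N]`, and the product of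
the other factors depends on the other coordinates and has integral `1`: so
`∫ C (from' n w) H = ∫ C (from' n w) ∏_{i<l} (1 + D(n+i) g(w (n+i)) / 2) = ∫ C w ∏_{i<l} (1 + D(n+i) g(w i) / 2)` (BLK). Sum over
`n ∈ [1, N - l]`: `∫ C w * (∑_n ∏_i ..) ≤ ∫ C w * ((N - l) + Z) ≤ N ∫ C + κ Z`. So `F w = ∑ g (w n) u n - ∑ C (from' n w)`
satisfies `∫ F H ≥ c`, `c` = the left side of the claim; if `F w < c` for all `w` then `∫ (c - F) H > 0`, a
contradiction (`c - F > 0`, `H ≥ 0`, `∫ H = 1`). -/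
def S_KE5 : Prop := ∀ (m : Measure A) [IsProbabilityMeasure m] (g : A → ℝ), Measurable g →
  (∀ a, |g a| ≤ 1) → ∫ a, g a ∂m = 0 →
  ∀ (N l : ℕ) (D u : ℕ → ℝ) (C : Wd → ℝ) (κ Z : ℝ), (∀ n, |D n| ≤ 2) → (∀ n, |u n| ≤ 1) →
  Measurable C → (∀ w, 0 ≤ C w ∧ C w ≤ κ) → (∀ w w' : Wd, (∀ i < l, w i = w' i) → C w = C w') →
  (∀ b : ℕ → ℝ, (∀ i, |b i| ≤ 1) →
    |∑ n ∈ Icc 1 (N - l), (∏ i ∈ range l, (1 + D (n + i) * b i / 2) - 1)| ≤ Z) →
  ∃ a : Wd, (∫ a, g a ^ 2 ∂m) / 2 * ∑ n ∈ Icc 1 N, D n * u n - N * ∫ w, C w ∂(Q m) - κ * Z ≤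
    ∑ n ∈ Icc 1 N, g (a n) * u n - ∑ n ∈ Icc 1 (N - l), C (from' n a)

/-- **KEY** (1.2 h) [KE1, KE2, KE4, KE5].  The key lemma.
Proof. Let `M > 0` with `κ l 2^l / √M ≤ ε/2`, `η = 1/√M`. Take `N ≥ N₀` with `κ l² 2^l ≤ (ε/2) N` from `NP u δ` for `r = M l`.
Predictors `e r` from KE1, `j < M` from KE2, `e = e (j l)`, `e' = e (j l + l)`, `∑ (e' - e)² ≤ N / M = η² N`. `D = Dv u e`:
`∑ D n u n = ∑ (D n)²` (orthogonality to `G = e`) `> δ N` (NP: `e` depends on the last `j l ≤ M l` values; as a function on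
`Fin (M l) → ℤ` extend by `0`). KE4 gives the hypothesis of KE5 with `Z = l 2^l (η N + l)`, `κ Z ≤ ε N`, and
` (∫ g²) / 2 * ∑ D u ≥ (∫ g²) / 2 * δ N`. (`κ ≥ 0` because `0 ≤ C ≤ κ`.) -/
def S_KEY : Prop := ∀ (m : Measure A) [IsProbabilityMeasure m] (g : A → ℝ), Measurable g →
  (∀ a, |g a| ≤ 1) → ∫ a, g a ∂m = 0 →
  ∀ u : ℕ → ℤ, (∀ n, |u n| ≤ 1) → ∀ δ : ℝ, 0 < δ → NP u δ →
  ∀ (l : ℕ) (C : Wd → ℝ) (κ : ℝ), Measurable C → (∀ w, 0 ≤ C w ∧ C w ≤ κ) →
  (∀ w w' : Wd, (∀ i < l, w i = w' i) → C w = C w') → ∀ ε > 0, ∀ N₀ : ℕ, ∃ N ≥ N₀, ∃ a : Wd,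
  N * (δ / 2 * ∫ a, g a ^ 2 ∂m - ∫ w, C w ∂(Q m) - ε) ≤
    ∑ n ∈ Icc 1 N, g (a n) * u n - ∑ n ∈ Icc 1 (N - l), C (from' n a)

/-! ## The second model -/

/-- **ADN** (1 h) [PRB].  With the weights `V1` a sufficiently large `s' (k+1)` is admissible.
Proof. PRB for `s'`: with `B = 2^(s k)`, `R = P s' (k+1)`, the probability is at most
`2 (k+1) (R+1)² exp (-(R/B) / (8 (k+1)²))` (` (V1 k).ncard = 1`), which is `≤ (1/2)^(k+2) / R` for all large `R`
(`R^3 exp (-c R) → 0`). And `2 (k+1) B ≤ R` for large `R`. -/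
def S_ADN : Prop := ∀ (s : ℕ → ℕ) (m : Measure A) [IsProbabilityMeasure m] (k : ℕ), StrictMono s →
  ∃ S₀ : ℕ, ∀ s' : ℕ → ℕ, StrictMono s' → (∀ i ≤ k, s' i = s i) → S₀ ≤ s' (k + 1) →
  Adm s' V1 m k

/-- **MOF** (0.8 h) [LOP].  Where `Phi k` modifies a digit there is a bad block.
Proof. Induction on `k`, with `Φ = Phi k`. `k = 0`: no modification. `k + 1`: let `i < P (k+1)` and
`Phi (k+1) w i d ≠ w i d`. If `cat k Φ w` is not good and `d ≤ k`, take `j = k` (`i / P (k+1) = 0`, `from' 0 w = w`).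
Otherwise `Phi (k+1) w i d = cat k Φ w i d = Φ (from' (P k * (i / P k)) w) (i % P k) d`, and the induction hypothesis for the
word `from' (P k * (i / P k)) w` at the place `i % P k` gives `j < k` with `d ≤ j`; and
`P k * (i / P k) + P (j+1) * ((i % P k) / P (j+1)) = P (j+1) * (i / P (j+1))` since `P (j+1) ∣ P k`. -/
def S_MOF : Prop := ∀ (s : ℕ → ℕ) (V : ℕ → Set (ℕ → ℝ)) (m : Measure A) [IsProbabilityMeasure m],
  StrictMono s → ∀ (k d i : ℕ) (w : Wd), i < P s k → Phi s V m k w i d ≠ w i d →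
  ∃ j, d ≤ j ∧ j < k ∧
    ¬ Good s V m j (cat s j (Phi s V m j) (from' (P s (j + 1) * (i / P s (j + 1))) w))

/-- **STG** (2.5 h) [LOP, MEA, MOF, KEY].  One stage: a word whose image correlates with `u`.
Proof. Let `R = P k`, `c = δ/2 * (p (1-p)) > 0`, `g a = (if a d = true then 1 else 0) - p` (mean `0`, `∫ g² = p (1-p)`), and
`C w = ∑_{j ∈ [d, k)} P (j+1) * (if ¬ Good j (cat j (Phi j) w) then 1 else 0)`; it depends on `w` on `[0, R)`, is measurable,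
`0 ≤ C ≤ κ = k R`, and `∫ C ≤ ∑_{j ≥ d} P (j+1) * 2^(-(j+2)) / P (j+1) ≤ 2^(-(d+1)) ≤ c/4` (`Adm j`; a word which is not
good is not half-good). KEY with `l = R`, `ε = c/4`, and `N₀' = max N₀ (8R/c)`: `N`, `a` with
`c/2 * N ≤ ∑ g (a n) u n - ∑_{n ∈ [1, N-R]} C (from' n a)`. Let `w i = w₀ i` for `i < R`, `w i = a i` for `i ≥ R`. Let `Bd` be the set of
`n ∈ [R, N - R]` with `cat k (Phi k) w n d ≠ a n d`. For `n ≥ R` the block of level `k` of `n` does not meet `[0, R)`, so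
`cat k (Phi k) w n = Phi k (from' (R (n/R)) a) (n % R)`, and MOF gives for `n ∈ Bd` some `j ∈ [d, k)` such that
`cat j (Phi j) (from' (P (j+1) * (n / P (j+1))) a)` is not good; the place `P (j+1) * (n / P (j+1))` is in `[R, N - R]`, and each
such place serves at most `P (j+1)` numbers `n`. So `|Bd| ≤ ∑_{n ∈ [1, N-R]} C (from' n a)`. Changing a digit changes the
sum by at most `1`; at most `2R` numbers `n ∈ [1, N]` are outside `[R, N - R]` : the sum of the claim is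
`≥ ∑ g (a n) u n - |Bd| - 2R ≥ c/2 * N - 2R ≥ c/4 * N`. (For `n < R` and for `n > N - R` use `|..| ≤ 1` for the difference.) -/
def S_STG : Prop := ∀ (s : ℕ → ℕ) (m : Measure A) [IsProbabilityMeasure m] (k d : ℕ) (u : ℕ → ℤ)
  (δ p : ℝ), Par s V1 m k → (∀ n, |u n| ≤ 1) → 0 < δ → NP u δ → p = m.real {a | a d = true} →
  (1 / 2) ^ (d + 1) ≤ δ / 2 * (p * (1 - p)) / 4 → ∀ (w₀ : Wd) (N₀ : ℕ), ∃ N ≥ N₀, ∃ w : Wd,
  (∀ i < P s k, w i = w₀ i) ∧
  δ / 2 * (p * (1 - p)) / 4 * N ≤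
    ∑ n ∈ Icc 1 N, ((if cat s k (Phi s V1 m k) w n d = true then (1 : ℝ) else 0) - p) * u n

/-- **EXT** (1.5 h) [LOC, LCS, ADN].  Extension to a good word of the next level.
Proof. Let `J = N / P k + 1`, so `N < J * P k`. Let `s' i = s i` for `i ≤ k` and `s' i = S + i` for `i > k`, with `S ≥ s k`, `S ≥ S₀`
and larger than the bound of ADN, and `2 (k+1) J P k ≤ 2^S`. `s'` is strictly increasing; `Par s' V1 m (k+1)`: `Adm j` for
`j < k` by LCS (`s' = s` on `[0, j+1]`), for `j = k` by ADN. By LCS `Phi s' V1 m k = Phi s V1 m k =: Φ`, `P s' k = P s k`, so the two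
`cat` agree. By `Adm k` there is `w₁` with `cat k Φ w₁` half-good (the bad set has measure `< 1`). Let `w' i = w i` for
`i < J P k` and `w' i = w₁ i` otherwise. `cat k Φ w'` agrees with `cat k Φ w` on `[0, J P k)` and with `cat k Φ w₁` on the other
places (blockwise). Good: for `l ≤ k` and a window, the terms `ev l` of `cat k Φ w'` and `cat k Φ w₁` differ at most for
`i < J P k` (LOC a: the block of level `l` of `i` lies in one block of level `k`), by at most `1`; so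
`|sum| ≤ R/(2(k+1)) + J P k ≤ R/(k+1)`, `R = P s' (k+1)`. -/
def S_EXT : Prop := ∀ (s : ℕ → ℕ) (m : Measure A) [IsProbabilityMeasure m] (k : ℕ), Par s V1 m k →
  ∀ (w : Wd) (N S₀ : ℕ), ∃ s' : ℕ → ℕ, (∀ i ≤ k, s' i = s i) ∧ S₀ ≤ s' (k + 1) ∧
  Par s' V1 m (k + 1) ∧ N < P s' (k + 1) ∧
  ∃ w' : Wd, (∀ i ≤ N, cat s' k (Phi s' V1 m k) w' i = cat s k (Phi s V1 m k) w i) ∧
    Good s' V1 m k (cat s' k (Phi s' V1 m k) w')

/-- **REC** (2 h) [LOP, LCS, INV, STG, EXT].  The recursion.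
Proof. States ` (s_k, w_k)` with `Par s_k V1 m k`; `s_0 = id`, `w_0` arbitrary. Step: STG with `w₀ = w_k`, `N₀ = max k (P s_k k)` gives
`N_k`, `w`; EXT with `w`, `N_k` gives `s_{k+1} = s'`, `w_{k+1} = w'`. As `cat k Φ w_{k+1}` is good,
`Phi s_{k+1} (k+1) w_{k+1} = cat k Φ w_{k+1}` (definition of `nxt`), which is `cat s_k k Φ w` on `[0, N_k]`; for
`i < P s_k k ≤ N_k` this is `Φ w i = Φ w_k i` (LOP b). So `Y_k = Phi s_k k w_k` satisfies `Y_{k+1} = Y_k` on `[0, P k)`. Let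
`s i = s_i i`; then `s = s_k` on `[0, k]` for all `k`, `s` is strictly increasing and `Par s V1 m K` for all `K` (LCS for `s`, `s_K`),
`Phi s k = Phi s_k k`. `y i = Y_{i+1} i` (`i < 2^(i+1) ≤ P (i+1)`); `y = Y_k` on `[0, P s k)` for all `k`. The block number
`q` of level `k + 1` of `y` agrees with that of `Phi s K w_K` for `K` with `P K ≥ P (k+1) (q+1)`, `K > k`: good by INV and
LOP (a). For `N = N_k`: `y n = cat s_k k Φ w n` for `n ≤ N_k < P (k+1)`, STG. -/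
def S_REC : Prop := ∀ (m : Measure A) [IsProbabilityMeasure m] (d : ℕ) (u : ℕ → ℤ) (δ p : ℝ),
  (∀ n, |u n| ≤ 1) → 0 < δ → NP u δ → p = m.real {a | a d = true} →
  (1 / 2) ^ (d + 1) ≤ δ / 2 * (p * (1 - p)) / 4 →
  ∃ s : ℕ → ℕ, (∀ K, Par s V1 m K) ∧ ∃ y : Wd,
    (∀ k q : ℕ, Good s V1 m k (from' (P s (k + 1) * q) y)) ∧
    ∀ N₀ : ℕ, ∃ N ≥ N₀, δ / 2 * (p * (1 - p)) / 4 * N ≤
      ∑ n ∈ Icc 1 N, ((if y n d = true then (1 : ℝ) else 0) - p) * u n

/-- **TWO** (1.2 h) [LOP, PHS].  From a one-sided sequence to a point of `X`.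
Proof. For `K` let `Y_K n = y n` for `n ≥ 0`, `Y_K n = y (n + P K)` for `-P K ≤ n < 0` and arbitrary for other `n`. `ℤ → A` is
compact and metrizable; let `z` be the limit of a subsequence (or a cluster point). `z n = y n` for `n ≥ 0`. Let
`ph (k+1) (0 + n) = 0`, i.e. `P (k+1) ∣ n` (PHS). For all `K ≥ k + 1` with `P K ≥ -n` the word `fromZ n Y_K` agrees on
`[0, P (k+1))` with `from' n y` (`n ≥ 0`) or with `from' (n + P K) y` (`n < 0`; then `n ≤ -P (k+1)`, and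
`P (k+1) ∣ n + P K`), so it is good. Goodness depends on finitely many coordinates (LOP a), and on those `Y_K = z` for
some `K` as large as we like. -/
def S_TWO : Prop := ∀ (s : ℕ → ℕ) (V : ℕ → Set (ℕ → ℝ)) (m : Measure A) [IsProbabilityMeasure m],
  StrictMono s → ∀ y : Wd, (∀ k q : ℕ, Good s V m k (from' (P s (k + 1) * q) y)) →
  ∃ z : ℤ → A, (z, (0 : ℤ_[2])) ∈ X s V m ∧ ∀ n : ℕ, z n = y n

/-- **NMD** (1.5 h) [REC, TWO, XCL, XUE, UNI, ISO].  Theorem 2: the second model is not Moebius disjoint.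
Proof. Let `p = m.real {a | a j = true}`, `c = δ/2 * (p (1-p)) > 0`, `d = Nat.pair j i` with `i` so large that
` (1/2)^(d+1) ≤ c/4` (`d ≥ i`, `Nat.right_le_pair`); ` (mdup m).real {a | a d = true} = p` since `dup a d = a j`. REC for
`mdup m`, then TWO: `x = (z, 0) ∈ X s V1 (mdup m)`. The model: as in MOD1 (`Y = X s V1 (mdup m)`, UNI, XUE first part, ISO).
`f z = (if z.1 0 d = true then 1 else 0) - p` is continuous and `f (T^n x) = (if y n d = true then 1 else 0) - p`, so the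
averages ` (1/N) ∑ f (T^n x) μ(n)` are `≥ c/4` for arbitrarily large `N`: they do not tend to `0`. -/
def S_NMD : Prop := ∀ (m : Measure A) [IsProbabilityMeasure m],
  (∃ j : ℕ, 0 < m.real {a | a j = true} ∧ m.real {a | a j = true} < 1) →
  ∀ δ : ℝ, 0 < δ → NP (fun n => ArithmeticFunction.moebius n) δ →
  ∃ (Y : Type) (_ : MetricSpace Y) (_ : CompactSpace Y) (_ : MeasurableSpace Y) (_ : BorelSpace Y)
    (T : Y ≃ₜ Y) (ν : Measure Y), UE (⇑T) ν ∧ Iso (⇑T) ν (⇑TB) (BM m) ∧ ¬ MD (⇑T)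

end

end Pool.Agent.Helper59.MB
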