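import Pool.Agent.Helper59.MB.Goals3

/-!
# Project MB (MP_49a1ce_an): goals, part 4 (completely deterministic sequences and Bernoulli systems)
-/

set_option autoImplicit false

open MeasureTheory Filter Topology Finset

namespace Pool.Agent.Helper59.MB

noncomputable section

/-- **UEC** (1.5 h).  Uniform convergence of the averages in a uniquely ergodic system.
Proof. Suppose there are `ε > 0`, `N_i → ∞`, `x_i` with `|(1/N_i) ∑_{n ∈ [1,N_i]} f (T^n x_i) - ∫ f dν| > ε`. The empirical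
probability measures `ν_i = (1/N_i) ∑ δ_{T^n x_i}` have a cluster point `ν'` (`ProbabilityMeasure Y` is compact:
instance in `Mathlib/MeasureTheory/Measure/Prokhorov.lean`, and metrizable, so take a subsequence). For continuous `g`:
`|∫ g ∘ T dν_i - ∫ g dν_i| ≤ 2 ‖g‖ / N_i`, so `∫ g ∘ T dν' = ∫ g dν'` and `ν'` is invariant
(`ext_of_forall_integral_eq_of_IsFiniteMeasure`), `ν' = ν`; but `|∫ f dν' - ∫ f dν| ≥ ε`. -/
def S_UEC : Prop := ∀ (Y : Type) [MetricSpace Y] [CompactSpace Y] [MeasurableSpace Y]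
  [BorelSpace Y] (T : Y → Y) (ν : Measure Y), Continuous T → UE T ν → ∀ (f : C(Y, ℝ)) (ε : ℝ),
  0 < ε → ∃ N₀ : ℕ, ∀ N ≥ N₀, ∀ x : Y,
  |∑ n ∈ Icc 1 N, f (T^[n] x) - N * ∫ y, f y ∂ν| ≤ ε * N

/-- **VIS** (1 h) [UEC].  Frequency of the visits to a closed set.
Proof. There is a continuous `g : Y → [0, 1]`, `g = 1` on `S`, with `∫ g dν < η`: `thickenedIndicator` of `S` with a small
parameter (`measure_of_cont_bdd_of_tendsto_indicator` / `tendsto_lintegral_thickenedIndicator_of_isClosed`), or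
outer regularity and Urysohn. UEC for `g` with `ε = η - ∫ g dν`. -/
def S_VIS : Prop := ∀ (Y : Type) [MetricSpace Y] [CompactSpace Y] [MeasurableSpace Y]
  [BorelSpace Y] (T : Y → Y) (ν : Measure Y), Continuous T → UE T ν → ∀ (S : Set Y) (η : ℝ),
  IsClosed S → ν.real S < η → ∃ N₀ : ℕ, ∀ N ≥ N₀, ∀ x : Y,
  ((Set.ncard {n : ℕ | n ∈ Icc 1 N ∧ T^[n] x ∈ S} : ℕ) : ℝ) ≤ η * N

/-- **LDV** (2 h).  Large deviations for functions of finitely many coordinates of a Bernoulli process, with weights.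
Proof. Let `q = 2M + 1`, `n ↦ r + j q`. For fixed `r < q` the functions `w ↦ h ((shiftZ A)^[r + j q] w) * v (r + j q)`,
`j = 0, 1, ..`, depend on disjoint sets of coordinates (`[r + jq - M, r + jq + M]`; ` (shiftZ A)^[n] w i = w (i + n)`), so they
are independent under `Be m` (`iIndepFun_infinitePi`, `iIndepFun.finsets`), have mean `0` (`Be m` is shift invariant) and are
bounded by `b`. If `L ≥ q` there are at most `2 L / q` of them with index `< L`, and Hoeffding gives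
`P (|∑_j| ≥ c L / q) ≤ 2 exp (-(c L / q)² / (2 (2 L / q) b²)) = 2 exp (-c² L / (4 q b²))`. If `|∑_{n < L}| ≥ c L` then one of the
`q` class sums is `≥ c L / q`. So `K = 2 q exp (a q)`, `a = c² / (4 q b²)` serve for all `L` (for `L < q` the bound is `≥ 1`). -/
def S_LDV : Prop := ∀ (m : Measure A) [IsProbabilityMeasure m] (M : ℕ) (h : (ℤ → A) → ℝ) (b c : ℝ),
  Measurable h → 0 < b → 0 < c → (∀ w, |h w| ≤ b) →
  (∀ w w' : ℤ → A, (∀ i : ℤ, |i| ≤ M → w i = w' i) → h w = h w') → ∫ w, h w ∂(Be m) = 0 →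
  ∃ K a : ℝ, 0 < a ∧ ∀ (L : ℕ) (v : ℕ → ℝ), (∀ n, |v n| ≤ 1) →
  (Be m).real {w | c * L ≤ |∑ n ∈ range L, h ((shiftZ A)^[n] w) * v n|} ≤ K * Real.exp (-(a * L))

/-- **APH** (1.5 h).  Approximation in `L¹` by functions of finitely many coordinates.
Proof. The cylinder sets (finitely many coordinates) are measure dense for `Be m` (`cyl_dense` in
`Pool/Agent/Helper44/MB/ERG.lean`), so `F` can be approximated in `L¹` by linear combinations `h₀` of indicators of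
cylinders with error `≤ θ/4` (first approximate `F` by a simple function). Truncate `h₀` to `[-b, b]` (the error does not
increase, as `|F| ≤ b`) and subtract its mean (`|mean| ≤ θ/4`, since `∫ F = 0`): `|h| ≤ 2b`. -/
def S_APH : Prop := ∀ (m : Measure A) [IsProbabilityMeasure m] (F : (ℤ → A) → ℝ) (b θ : ℝ),
  Measurable F → 0 < θ → (∀ w, |F w| ≤ b) → ∫ w, F w ∂(Be m) = 0 →
  ∃ (M : ℕ) (h : (ℤ → A) → ℝ), Measurable h ∧ (∀ w, |h w| ≤ 2 * b) ∧
    (∀ w w' : ℤ → A, (∀ i : ℤ, |i| ≤ M → w i = w' i) → h w = h w') ∧ ∫ w, h w ∂(Be m) = 0 ∧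
    ∫ w, |F w - h w| ∂(Be m) ≤ θ

/-- **WIN** (2 h) [LDV, APH].  In a Bernoulli system few weight words are useless.
Proof. Transport to `Be m` by `ψ : (ℤ → A) → Y`: `F = f ∘ ψ` (measurable, bounded by `b = ‖f‖ + 1`, mean `0`), and for almost all
`w`, `f (T^[i] (ψ w)) = F ((shiftZ A)^[i] w)` for all `i` (`Iso` with `T`, and `ψ (shiftZ w) = T (ψ w)` almost everywhere, cf. ISA;
`Be m` is shift invariant). Let `θ = c η / 4` and `h`, `M` from APH, and `K`, `a` from LDV for `h` and `c/2`. Choose `ε > 0` with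
`2^ε ≤ exp (a/2)`. If `cL ≤ |∑ F(S^i w) v_i|` for some `v ∈ U`, then `∑_{i<L} |F - h| (S^i w) ≥ c L / 2` (probability
`≤ 2θ/c = η/2` by Markov's inequality) or `|∑ h(S^i w) v_i| ≥ c L / 2` for some `v ∈ U` (probability
`≤ 2^(ε L) K exp (-a L) ≤ K exp (-a L / 2) ≤ η/2` for `L ≥ L₀`). -/
def S_WIN : Prop := ∀ (Y : Type) [TopologicalSpace Y] [MeasurableSpace Y] [BorelSpace Y]
  (T : Y → Y) (ν : Measure Y) (m : Measure A) [IsProbabilityMeasure m] (f : Y → ℝ) (b : ℝ),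
  IsProbabilityMeasure ν → MeasurePreserving T ν ν → Iso T ν (shiftZ A) (Be m) →
  Measurable f → (∀ y, |f y| ≤ b) → ∫ y, f y ∂ν = 0 → ∀ c η : ℝ, 0 < c → 0 < η →
  ∃ ε : ℝ, 0 < ε ∧ ∃ L₀ : ℕ, ∀ L ≥ L₀, ∀ U : Finset (Fin L → ℤ), (U.card : ℝ) ≤ 2 ^ (ε * L) →
  (∀ v ∈ U, ∀ i, |v i| ≤ 1) →
  ν.real {y | ∃ v ∈ U, c * L ≤ |∑ i : Fin L, f (T^[(i : ℕ)] y) * v i|} ≤ η

/-- **SLW** (1.2 h) [ENT].  Sliding windows.
Proof. ENT with `ε' = ε/4` : for `L ≥ L₀`, `U'` with `|U'| ≤ 2^(ε' L)` (restrict `U'` to the words with values in `{-1, 0, 1}`). Let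
`U` be the set of the words of length `L` inside the concatenations `β γ`, `β, γ ∈ U'`: at most `L |U'|² ≤ L 2^(ε L / 2) ≤ 2^(ε L)`
for large `L` (enlarge `L₀`). The window `[n, n+L)` lies in the blocks `q = n / L` and `q + 1`; if both block words are in `U'`
then the window word is in `U`. The number of `n ∈ [1, N]` with block `n / L` bad is `≤ ε' (N + 1)`, with block
`n / L + 1 = (n + L) / L` bad is `≤ ε' (N + L + 1)`: together `≤ ε N` for `N ≥ N₁`. -/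
def S_SLW : Prop := ∀ u : ℕ → ℤ, (∀ n, |u n| ≤ 1) → (∀ δ : ℝ, 0 < δ → ¬ NP u δ) →
  ∀ ε : ℝ, 0 < ε → ∃ L₀ : ℕ, ∀ L ≥ L₀, ∃ U : Finset (Fin L → ℤ), (U.card : ℝ) ≤ 2 ^ (ε * L) ∧
  (∀ v ∈ U, ∀ i, |v i| ≤ 1) ∧ ∃ N₁ : ℕ, ∀ N ≥ N₁,
  ((Set.ncard {n : ℕ | n ∈ Icc 1 N ∧ (fun i : Fin L => u (n + i)) ∉ U} : ℕ) : ℝ) ≤ ε * N

/-- **DIS** (1.5 h) [UEC, VIS, WIN, SLW, ISA, ALP, NT].  If `μ` is completely deterministic then every uniquely ergodic
Bernoulli system is Moebius disjoint.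
Proof. By ALP and ISA `T` is isomorphic to ` (shiftZ A, Be m)`. Constants: ` (1/N) ∑ μ(n) → 0` (NT with `k = 0`), so we may
replace `f` by `f - ∫ f dν`. Let `|f| ≤ b`, `b ≥ 1`, and `c, η > 0`. WIN gives `ε₀`, `L₀`; apply SLW with
`ε = min ε₀ η` and take `L` large: `U`, `N₁`. `S = {y | ∃ v ∈ U, c L ≤ |∑_{i<L} f (T^i y) v_i|}` is closed and `ν.real S ≤ η`, so
by VIS the frequency of the `n ∈ [1, N]` with `T^n x ∈ S` is `≤ 2η` for large `N`. For the `n ∈ [1, N]` with `T^n x ∉ S` and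
` (μ(n+i))_{i<L} ∈ U`: `|∑_{i<L} f (T^(n+i) x) μ(n+i)| < c L`; the other `n` are at most `3 η N`. Hence
`|∑_{n ∈ [1,N]} ∑_{i<L} f (T^(n+i) x) μ(n+i)| ≤ N c L + 3 η N b L`. The double sum is `L` times
`∑_{n ∈ [1,N]} f (T^n x) μ(n)` up to `2 L² b`. So the limsup of the averages is `≤ c + 3 η b`. -/
def S_DIS : Prop := (∀ δ : ℝ, 0 < δ → ¬ NP (fun n => ArithmeticFunction.moebius n) δ) →
  ∀ (Y : Type) [MetricSpace Y] [CompactSpace Y] [MeasurableSpace Y] [BorelSpace Y] (T : Y ≃ₜ Y)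
  (ν : Measure Y), UE (⇑T) ν → (∃ (Z : Type) (_ : MeasurableSpace Z) (_ : StandardBorelSpace Z)
    (κ : Measure Z) (_ : IsProbabilityMeasure κ), Iso (⇑T) ν (shiftZ Z) (Be κ)) → MD (⇑T)

end

end Pool.Agent.Helper59.MB
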