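import Pool.Agent.Helper14.MB.LOC
import Pool.Agent.Helper56.MB.LOP
import Pool.Agent.Helper39.MB.LCS
import Pool.Agent.Helper23.MB.MEA
import Pool.Agent.Helper12.MB.BLK
import Pool.Agent.Helper89.MB.HOE
import Pool.Agent.Helper96.MB.PRB
import Pool.Agent.Helper8.MB.INQ
import Pool.Agent.Helper85.MB.PAR
import Pool.Agent.Helper79.MB.INV
import Pool.Agent.Helper13.MB.MNS
import Pool.Agent.Helper77.MB.PHS
import Pool.Agent.Helper25.MB.HAR
import Pool.Agent.Helper49.MB.XCL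
import Pool.Agent.Helper83.MB.THE
import Pool.Agent.Helper48.MB.SUM
import Pool.Agent.Helper87.MB.AVG
import Pool.Agent.Helper72.MB.NTA
import Pool.Agent.Helper32.MB.NTB
import Pool.Agent.Helper62.MB.NT
import Pool.Agent.Helper37.MB.MDT
import Pool.Agent.Helper92.MB.CYL
import Pool.Agent.Helper54.MB.FCA
import Pool.Agent.Helper98.MB.FCM
import Pool.Agent.Helper32.MB.DNS
import Pool.Agent.Helper40.MB.UNI
import Pool.Agent.Helper36.MB.XUE
import Pool.Agent.Helper63.MB.PSA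
import Pool.Agent.Helper4.MB.PSB
import Pool.Agent.Helper73.MB.DUP
import Pool.Agent.Helper95.MB.ISO
import Pool.Agent.Helper46.MB.MOD1

/-!
# Project MB (MP_49a1ce_an): assembly, part 1
-/

set_option autoImplicit false

namespace Pool.Agent.Helper59.MB

theorem LOC : S_LOC := Pool.Agent.Helper14.MB.t_LOC
theorem LOP : S_LOP := Pool.Agent.Helper56.MB.t_LOP LOC
theorem LCS : S_LCS := Pool.Agent.Helper39.MB.t_LCS
theorem MEA : S_MEA := Pool.Agent.Helper23.MB.t_MEA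
theorem BLK : S_BLK := Pool.Agent.Helper12.MB.t_BLK
theorem HOE : S_HOE := Pool.Agent.Helper89.MB.t_HOE
theorem PRB : S_PRB := Pool.Agent.Helper96.MB.t_PRB LOC LOP MEA BLK HOE
theorem INQ : S_INQ := Pool.Agent.Helper8.MB.t_INQ
theorem PAR : S_PAR := Pool.Agent.Helper85.MB.t_PAR PRB INQ
theorem INV : S_INV := Pool.Agent.Helper79.MB.t_INV LOP
theorem MNS : S_MNS := Pool.Agent.Helper13.MB.t_MNS LOC LOP MEA BLK
theorem PHS : S_PHS := Pool.Agent.Helper77.MB.t_PHS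
theorem HAR : S_HAR := Pool.Agent.Helper25.MB.t_HAR
theorem XCL : S_XCL := Pool.Agent.Helper49.MB.t_XCL LOP PHS
theorem THE : S_THE := Pool.Agent.Helper83.MB.t_THE LOC PHS
theorem SUM : S_SUM := Pool.Agent.Helper48.MB.t_SUM PHS THE
theorem AVG : S_AVG := Pool.Agent.Helper87.MB.t_AVG SUM MNS PHS
theorem NTA : S_NTA := Pool.Agent.Helper72.MB.t_NTA
theorem NTB : S_NTB := Pool.Agent.Helper32.MB.t_NTB
theorem NT : S_NT := Pool.Agent.Helper62.MB.t_NT NTA NTB
theorem MDT : S_MDT := Pool.Agent.Helper37.MB.t_MDT SUM MNS PHS PAR NT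
theorem CYL : S_CYL := Pool.Agent.Helper92.MB.t_CYL PHS
theorem FCA : S_FCA := Pool.Agent.Helper54.MB.t_FCA AVG CYL
theorem FCM : S_FCM := Pool.Agent.Helper98.MB.t_FCM MDT CYL
theorem DNS : S_DNS := Pool.Agent.Helper32.MB.t_DNS PHS
theorem UNI : S_UNI := Pool.Agent.Helper40.MB.t_UNI
theorem XUE : S_XUE := Pool.Agent.Helper36.MB.t_XUE FCA FCM DNS
theorem PSA : S_PSA := Pool.Agent.Helper63.MB.t_PSA LOP PHS MEA BLK HAR
theorem PSB : S_PSB := Pool.Agent.Helper4.MB.t_PSB LOP PHS INV PSA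
theorem DUP : S_DUP := Pool.Agent.Helper73.MB.t_DUP
theorem ISO : S_ISO := Pool.Agent.Helper95.MB.t_ISO PSA PSB DUP HAR
theorem MOD1 : S_MOD1 := Pool.Agent.Helper46.MB.t_MOD1 XCL XUE UNI ISO PAR

end Pool.Agent.Helper59.MB
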