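import Pool.Agent.Helper59.MB.Main1
import Pool.Agent.Helper54.MB.KE1
import Pool.Agent.Helper23.MB.KE2
import Pool.Agent.Helper4.MB.KE4
import Pool.Agent.Helper44.MB.KE5
import Pool.Agent.Helper63.MB.KEY
import Pool.Agent.Helper85.MB.ADN
import Pool.Agent.Helper49.MB.MOF
import Pool.Agent.Helper2.MB.STG
import Pool.Agent.Helper1.MB.EXT
import Pool.Agent.Helper39.MB.REC
import Pool.Agent.Helper39.MB.TWO
import Pool.Agent.Helper56.MB.NMD
import Pool.Agent.Helper20.MB.ENB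
import Pool.Agent.Helper2.MB.CLO
import Pool.Agent.Helper39.MB.CPX
import Pool.Agent.Helper87.MB.ZEA
import Pool.Agent.Helper54.MB.ZEB
import Pool.Agent.Helper63.MB.SQF
import Pool.Agent.Helper18.MB.SAR
import Pool.Agent.Helper15.MB.ISA
import Pool.Agent.Helper92.MB.IPR
import Pool.Agent.Helper46.MB.ALP
import Pool.Agent.Helper44.MB.ERG
import Pool.Agent.Helper36.MB.ERT
import Pool.Agent.Helper14.MB.UEE
import Pool.Agent.Helper4.MB.UEP
import Pool.Agent.Helper13.MB.QBE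
import Pool.Agent.Helper31.MB.MOA
import Pool.Agent.Helper40.MB.NEG

/-!
# Project MB (MP_49a1ce_an): assembly, part 2
-/

set_option autoImplicit false

namespace Pool.Agent.Helper59.MB

theorem KE1 : S_KE1 := Pool.Agent.Helper54.MB.t_KE1
theorem KE2 : S_KE2 := Pool.Agent.Helper23.MB.t_KE2
theorem KE4 : S_KE4 := Pool.Agent.Helper4.MB.t_KE4
theorem KE5 : S_KE5 := Pool.Agent.Helper44.MB.t_KE5
theorem KEY : S_KEY := Pool.Agent.Helper63.MB.t_KEY KE1 KE2 KE4 KE5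
theorem ADN : S_ADN := Pool.Agent.Helper85.MB.t_ADN PRB
theorem MOF : S_MOF := Pool.Agent.Helper49.MB.t_MOF
theorem STG : S_STG := Pool.Agent.Helper2.MB.t_STG LOP MEA MOF KEY
theorem EXT : S_EXT := Pool.Agent.Helper1.MB.t_EXT LOC LOP LCS ADN
theorem REC : S_REC := Pool.Agent.Helper39.MB.t_REC LOP INV STG EXT
theorem TWO : S_TWO := Pool.Agent.Helper39.MB.t_TWO LOP PHS
theorem NMD : S_NMD := Pool.Agent.Helper56.MB.t_NMD REC TWO XCL XUE UNI ISO
theorem CLO : S_CLO := Pool.Agent.Helper2.MB.t_CLO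
theorem CPX : S_CPX := Pool.Agent.Helper39.MB.t_CPX
theorem ZEA : S_ZEA := Pool.Agent.Helper87.MB.t_ZEA
theorem ZEB : S_ZEB := Pool.Agent.Helper54.MB.t_ZEB ZEA
theorem SQF : S_SQF := Pool.Agent.Helper63.MB.t_SQF
theorem ISA : S_ISA := Pool.Agent.Helper15.MB.t_ISA
theorem IPR : S_IPR := Pool.Agent.Helper92.MB.t_IPR HAR
theorem ALP : S_ALP := Pool.Agent.Helper46.MB.t_ALP
theorem ERG : S_ERG := Pool.Agent.Helper44.MB.t_ERG
theorem ERT : S_ERT := Pool.Agent.Helper36.MB.t_ERT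
theorem UEE : S_UEE := Pool.Agent.Helper14.MB.t_UEE
theorem UEP : S_UEP := Pool.Agent.Helper4.MB.t_UEP
theorem QBE : S_QBE := Pool.Agent.Helper13.MB.t_QBE MOD1 ISA IPR ALP ERG ERT UEE UEP
theorem MOA : S_MOA := Pool.Agent.Helper31.MB.t_MOA MOD1 NMD ALP ISA
theorem NEG : S_NEG := Pool.Agent.Helper40.MB.t_NEG MOD1 NMD ISA UEE

end Pool.Agent.Helper59.MB
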