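import Pool.Agent.Helper59.MB.Main2
import Pool.Agent.Helper12.MB.ENA
import Pool.Agent.Helper8.MB.ENT

/-!
# Project MB (MP_49a1ce_an): assembly, part 3
-/

set_option autoImplicit false

namespace Pool.Agent.Helper59.MB

theorem ENA : S_ENA := Pool.Agent.Helper12.MB.t_ENA
theorem ENT : S_ENT := Pool.Agent.Helper8.MB.t_ENT ENA
theorem ENB : S_ENB := Pool.Agent.Helper20.MB.t_ENB ENT
theorem SAR : S_SAR := Pool.Agent.Helper18.MB.t_SAR ENB CLO CPX ZEB SQF

end Pool.Agent.Helper59.MB
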