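import Pool.Agent.Helper59.MB.Main3
import Pool.Agent.Helper91.MB.UEC
import Pool.Agent.Helper14.MB.VIS
import Pool.Agent.Helper39.MB.LDV
import Pool.Agent.Helper40.MB.APH
import Pool.Agent.Helper12.MB.WIN
import Pool.Agent.Helper48.MB.SLW
import Pool.Agent.Helper9.MB.DIS

/-!
# Project MB (MP_49a1ce_an): assembly, part 4
-/

set_option autoImplicit false

namespace Pool.Agent.Helper59.MB

theorem UEC : S_UEC := Pool.Agent.Helper91.MB.t_UEC
theorem VIS : S_VIS := Pool.Agent.Helper14.MB.t_VIS UEC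
theorem LDV : S_LDV := Pool.Agent.Helper39.MB.t_LDV
theorem APH : S_APH := Pool.Agent.Helper40.MB.t_APH
theorem WIN : S_WIN := Pool.Agent.Helper12.MB.t_WIN LDV APH
theorem SLW : S_SLW := Pool.Agent.Helper48.MB.t_SLW ENT
theorem DIS : S_DIS := Pool.Agent.Helper9.MB.t_DIS VIS WIN SLW NT

end Pool.Agent.Helper59.MB
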